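import Mathlib

set_option autoImplicit false

/-!
# Task WA-approx (helper598): approximate zeros with non-zero coordinates

`L` is a field with a valuation `v = Valued.v` with values in `ℤᵐ⁰` (and the topology of the
valuation), `K` a dense subfield on which the valuation is not trivial. `x ≠ 0` is an exact zero in
`L ^ s` of the diagonal form `∑ a i * X i ^ k` (with `a i ≠ 0` in `K`, and `k` a unit). Then near `x`
there are approximate zeros `ζ` in `K ^ s` all of whose coordinates are non-zero, as precise as we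
want relative to the term `a j₀ * ζ j₀ ^ k` of a prescribed index `j₀`, and the whole relative
neighbourhood of `ζ` lies in the given neighbourhood `U` of `x`.

Paper proof. `U` contains a ball `{y | ∀ i, v (y i - x i) < γ}`, `γ ≠ 0` (`Valued.mem_nhds` in each
coordinate, `set_pi_mem_nhds` / `nhds_pi`). Choose `l` with `x l ≠ 0`. Let `B` bound all `v (x i)`
and `γ` (`B ≠ 0`) and take `M₀ ≥ 1` with `exp (-M₀) * B < γ`. Let `M ≥ M₀`.
Step 1. There are `ζ⁰ i ∈ K`, all non-zero, with `v (ζ⁰ i - x i) < γ` for all `i`,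
`v (ζ⁰ i - x i) < v (x i)` if `x i ≠ 0` (hence `v (ζ⁰ i) = v (x i)`), and so close to `x` that
`v (f ζ⁰) ≤ exp (-M) * v (a l * (ζ⁰ l) ^ k)`, `f y = ∑ a i * y i ^ k`: `f` is continuous, `f x = 0` and
`v (a l * ζ⁰ l ^ k) = v (a l * x l ^ k) ≠ 0` is constant. (For `x i = 0` take a small non-zero
element: a power of the element `c` of `hnt`, or use density.)
Step 2 (Newton iteration in the coordinate `l`, inside `K`). If `ζ` has non-zero coordinates and
`e = v (f ζ) / v (a l * ζ l ^ k) ≤ exp (-1)`, let `u = - f ζ / (k * a l * ζ l ^ k)`, `v u = e`, and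
replace `ζ l` by `ζ l * (1 + u)`. Since `(1 + u) ^ k = 1 + k u + u ^ 2 * (polynomial in u with integer
coefficients)` and `v (integer) ≤ 1`, the new value satisfies `v (f ζ') ≤ e ^ 2 * v (a l * ζ' l ^ k)`,
and `v (ζ' l) = v (ζ l)`, `v (ζ' l - ζ l) = e * v (ζ l)`. Iterating, we reach
`v (f ζ) ≤ exp (-M) * v (a j₀ * ζ j₀ ^ k)` (the right side does not change during the iteration, or only
by a factor of valuation one if `j₀ = l`), and the total change of the coordinate `l` has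
valuation `≤ exp (-M) * v (x l) < γ`. So still `v (ζ i - x i) < γ` for all `i` (ultrametric).
Step 3. If `v (z i / ζ i - 1) ≤ exp (-M)` then `v (z i - ζ i) ≤ exp (-M) * v (ζ i)
≤ exp (-M₀) * B < γ` (note `v (ζ i) ≤ max (v (x i)) γ ≤ B`), so `z` is in the ball, hence in `U`.
-/

namespace Pool.Agent.H598.WA

open WithZero

/-- sufficiently large exponents -/
theorem ap_exists_M (B γ : WithZero (Multiplicative ℤ)) (hγ : γ ≠ 0) :
    ∃ M₀ : ℕ, 1 ≤ M₀ ∧ exp (-(M₀ : ℤ)) * B < γ := by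
  rcases eq_or_ne B 0 with hB | hB
  · refine ⟨1, le_rfl, ?_⟩
    rw [hB, mul_zero]
    exact zero_lt_iff.2 hγ
  · obtain ⟨β, hβ⟩ : ∃ β : ℤ, B = exp β := ⟨log B, (exp_log hB).symm⟩
    obtain ⟨g, hg⟩ : ∃ g : ℤ, γ = exp g := ⟨log γ, (exp_log hγ).symm⟩
    refine ⟨(β - g).toNat + 1, by omega, ?_⟩
    rw [hβ, hg, ← exp_add, exp_lt_exp]
    push_cast
    have h := Int.self_le_toNat (β - g)
    omega

/-- the expansion of a power in the ring of integers -/
theorem ap_pow {K : Type*} [Field K] (w : Valuation K (WithZero (Multiplicative ℤ))) (u : K)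
    (hu : w u ≤ 1) (k : ℕ) : ∃ q : K, w q ≤ 1 ∧ (1 + u) ^ k = 1 + k * u + q * u ^ 2 := by
  obtain ⟨q, hq⟩ := Polynomial.powAddExpansion (1 : w.integer) ⟨u, hu⟩ k
  refine ⟨q.1, q.2, ?_⟩
  have h := congrArg (fun x : w.integer => (x : K)) hq
  push_cast at h
  rw [one_pow, one_pow, mul_one] at h
  exact h

/-- the Newton iteration -/
theorem ap_newton {K : Type*} [Field K] (w : Valuation K (WithZero (Multiplicative ℤ))) {k : ℕ}
    (hkv : w (k : K) = 1) (A α t₀ : K) (hα : α ≠ 0) (ht₀ : t₀ ≠ 0) {M : ℕ} (hM : 1 ≤ M)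
    (h0 : w (A + α * t₀ ^ k) ≤ exp (-(M : ℤ)) * w (α * t₀ ^ k)) (n : ℕ) :
    ∃ t : K, w (t / t₀ - 1) ≤ exp (-(M : ℤ)) ∧
      w (A + α * t ^ k) ≤ exp (-((M + n : ℕ) : ℤ)) * w (α * t₀ ^ k) := by
  have hk0 : (k : K) ≠ 0 := by
    intro h
    rw [h, map_zero] at hkv
    exact zero_ne_one hkv
  have hM1 : (exp (-(M : ℤ)) : WithZero (Multiplicative ℤ)) < 1 := by
    rw [← exp_zero, exp_lt_exp]
    omega
  have hunit : ∀ t : K, w (t / t₀ - 1) ≤ exp (-(M : ℤ)) → w (t / t₀) = 1 := by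
    intro t ht
    have h1 := w.map_one_add_of_lt (lt_of_le_of_lt ht hM1)
    have h2 : 1 + (t / t₀ - 1) = t / t₀ := by ring
    rwa [h2] at h1
  induction n with
  | zero =>
    refine ⟨t₀, ?_, by simpa using h0⟩
    rw [div_self ht₀, sub_self, map_zero]
    exact zero_le
  | succ n ih =>
    obtain ⟨t, ht1, ht2⟩ := ih
    have hu1 := hunit t ht1
    have ht : t ≠ 0 := by
      rintro rfl
      rw [zero_div, map_zero] at hu1
      exact zero_ne_one hu1
    have hwt : w t = w t₀ := by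
      rw [map_div₀] at hu1
      have h3 : w t₀ ≠ 0 := (w.ne_zero_iff).2 ht₀
      rwa [div_eq_one_iff_eq h3] at hu1
    have hwat : w (α * t ^ k) = w (α * t₀ ^ k) := by
      rw [map_mul, map_mul, map_pow, map_pow, hwt]
    have hat : α * t ^ k ≠ 0 := mul_ne_zero hα (pow_ne_zero _ ht)
    have hwat0 : w (α * t₀ ^ k) ≠ 0 := (w.ne_zero_iff).2 (mul_ne_zero hα (pow_ne_zero _ ht₀))
    obtain ⟨E, hE⟩ : ∃ E, E = A + α * t ^ k := ⟨_, rfl⟩
    obtain ⟨u, hu⟩ : ∃ u, u = -E / (k * (α * t ^ k)) := ⟨_, rfl⟩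
    have hwu : w u ≤ exp (-((M + n : ℕ) : ℤ)) := by
      rw [hu, map_div₀, Valuation.map_neg, map_mul, hkv, one_mul, hwat, hE]
      exact (div_le_iff₀ (zero_lt_iff.2 hwat0)).2 ht2
    have hun : (exp (-((M + n : ℕ) : ℤ)) : WithZero (Multiplicative ℤ)) ≤ exp (-(M : ℤ)) := by
      rw [exp_le_exp]
      push_cast
      omega
    obtain ⟨q, hq1, hq2⟩ := ap_pow w u ((hwu.trans hun).trans hM1.le) k
    refine ⟨t * (1 + u), ?_, ?_⟩
    · have h1 : t * (1 + u) / t₀ - 1 = (t / t₀ - 1) + (t / t₀) * u := by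
        field_simp
        ring
      rw [h1]
      refine w.map_add_le ht1 ?_
      rw [map_mul, hu1, one_mul]
      exact hwu.trans hun
    · have h1 : A + α * (t * (1 + u)) ^ k = α * t ^ k * (q * u ^ 2) := by
        rw [mul_pow, hq2]
        have h2 : α * t ^ k * (k * u) = -E := by
          rw [hu]
          field_simp
        have h3 : A + α * (t ^ k * (1 + k * u + q * u ^ 2)) =
            (A + α * t ^ k) + α * t ^ k * (k * u) + α * t ^ k * (q * u ^ 2) := by ring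
        rw [h3, h2, ← hE]
        ring
      rw [h1, map_mul, hwat, mul_comm]
      refine mul_le_mul' ?_ le_rfl
      rw [map_mul, map_pow]
      calc w q * w u ^ 2 ≤ 1 * (exp (-((M + n : ℕ) : ℤ))) ^ 2 :=
            mul_le_mul' hq1 (pow_le_pow_left' hwu 2)
        _ = exp (-((M + n : ℕ) : ℤ) + -((M + n : ℕ) : ℤ)) := by rw [one_mul, sq, exp_add]
        _ ≤ exp (-((M + (n + 1) : ℕ) : ℤ)) := by
            rw [exp_le_exp]
            push_cast
            omega

section top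

variable {K L : Type*} [Field K] [Field L] [Valued L (WithZero (Multiplicative ℤ))] [Algebra K L]

theorem ap_ball {x : L} {S : Set L} (hS : S ∈ nhds x) :
    ∃ γ : WithZero (Multiplicative ℤ), γ ≠ 0 ∧ ∀ y, Valued.v (y - x) < γ → y ∈ S := by
  obtain ⟨γ, hγ⟩ := Valued.mem_nhds.1 hS
  refine ⟨MonoidWithZeroHom.ValueGroup₀.embedding γ.1, ?_, fun y hy => hγ ?_⟩
  · rw [map_ne_zero]
    exact γ.ne_zero
  · exact Valuation.restrict_lt_iff_lt_embedding _ |>.2 hy

theorem ap_ball_mem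
    (hnt : ∃ c : K, c ≠ 0 ∧ (Valued.v (algebraMap K L c) : WithZero (Multiplicative ℤ)) < 1)
    {δ : WithZero (Multiplicative ℤ)} (hδ : δ ≠ 0) :
    ∃ c : K, c ≠ 0 ∧ (Valued.v (algebraMap K L c) : WithZero (Multiplicative ℤ)) < δ := by
  obtain ⟨c, hc0, hc1⟩ := hnt
  obtain ⟨n, hn⟩ := exists_pow_lt₀ hc1 (Units.mk0 δ hδ)
  refine ⟨c ^ n, pow_ne_zero _ hc0, ?_⟩
  rw [map_pow, map_pow]
  exact hn

theorem ap_nhds
    (hnt : ∃ c : K, c ≠ 0 ∧ (Valued.v (algebraMap K L c) : WithZero (Multiplicative ℤ)) < 1)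
    {δ : WithZero (Multiplicative ℤ)} (hδ : δ ≠ 0) (x : L) :
    {y : L | Valued.v (y - x) < δ} ∈ nhds x := by
  obtain ⟨c, hc0, hc1⟩ := ap_ball_mem (K := K) hnt hδ
  rw [Valued.mem_nhds]
  have h0 : (Valued.v : Valuation L (WithZero (Multiplicative ℤ))).restrict (algebraMap K L c) ≠ 0 := by
    rw [Ne, Valuation.restrict_eq_zero_iff, ← Ne, Valuation.ne_zero_iff]
    exact (map_ne_zero _).2 hc0
  refine ⟨Units.mk0 _ h0, fun y hy => ?_⟩
  have h1 : (Valued.v : Valuation L (WithZero (Multiplicative ℤ))).restrict (y - x) <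
      (Valued.v : Valuation L (WithZero (Multiplicative ℤ))).restrict (algebraMap K L c) := hy
  rw [Valuation.restrict_lt_iff] at h1
  exact h1.trans hc1

theorem ap_near (hd : DenseRange (algebraMap K L))
    (hnt : ∃ c : K, c ≠ 0 ∧ (Valued.v (algebraMap K L c) : WithZero (Multiplicative ℤ)) < 1)
    {δ : WithZero (Multiplicative ℤ)} (hδ : δ ≠ 0) (x : L) :
    ∃ ζ : K, ζ ≠ 0 ∧ Valued.v (algebraMap K L ζ - x) < δ := by
  obtain ⟨y, hy1, ζ, rfl⟩ := mem_closure_iff_nhds.1 (hd x) _ (ap_nhds (K := K) hnt hδ x)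
  have hy1 : Valued.v (algebraMap K L ζ - x) < δ := hy1
  by_cases h0 : ζ = 0
  · subst h0
    rw [map_zero] at hy1
    obtain ⟨c, hc0, hc1⟩ := ap_ball_mem (K := K) hnt hδ
    refine ⟨c, hc0, ?_⟩
    have h1 : algebraMap K L c - x = algebraMap K L c + (0 - x) := by ring
    rw [h1]
    exact Valuation.map_add_lt _ hc1 hy1
  · exact ⟨ζ, h0, hy1⟩

theorem ap_pi {s : ℕ} (j₀ : Fin s) {x : Fin s → L} {N : Set (Fin s → L)} (hN : N ∈ nhds x) :
    ∃ δ : WithZero (Multiplicative ℤ), δ ≠ 0 ∧ ∀ y : Fin s → L,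
      (∀ i, Valued.v (y i - x i) < δ) → y ∈ N := by
  rw [nhds_pi, Filter.mem_pi] at hN
  obtain ⟨I, -, t, ht, hI⟩ := hN
  choose δ hδ0 hδ using fun i => ap_ball (ht i)
  have : Nonempty (Fin s) := ⟨j₀⟩
  obtain ⟨i₀, hi₀⟩ := Finite.exists_min δ
  exact ⟨δ i₀, hδ0 i₀, fun y hy => hI fun i _ => hδ i _ (lt_of_lt_of_le (hy i) (hi₀ i))⟩

end top

theorem approx {K L : Type*} [Field K] [Field L] [Valued L (WithZero (Multiplicative ℤ))]
    [Algebra K L] (hd : DenseRange (algebraMap K L))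
    (hnt : ∃ c : K, c ≠ 0 ∧ (Valued.v (algebraMap K L c) : WithZero (Multiplicative ℤ)) < 1)
    {s k : ℕ} (hk : 1 ≤ k) (hkv : (Valued.v (k : L) : WithZero (Multiplicative ℤ)) = 1)
    (a : Fin s → K) (ha : ∀ i, a i ≠ 0) (j₀ : Fin s) (x : Fin s → L) (hx0 : x ≠ 0)
    (hx : ∑ i, algebraMap K L (a i) * x i ^ k = 0) (U : Set (Fin s → L)) (hU : U ∈ nhds x) :
    ∃ M₀ : ℕ, ∀ M : ℕ, M₀ ≤ M → ∃ ζ : Fin s → K, (∀ i, ζ i ≠ 0) ∧
      (Valued.v (algebraMap K L (∑ i, a i * ζ i ^ k)) : WithZero (Multiplicative ℤ)) ≤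
        exp (-(M : ℤ)) * Valued.v (algebraMap K L (a j₀ * ζ j₀ ^ k)) ∧
      ∀ z : Fin s → K, (∀ i, (Valued.v (algebraMap K L (z i / ζ i - 1)) :
        WithZero (Multiplicative ℤ)) ≤ exp (-(M : ℤ))) →
        (fun i => algebraMap K L (z i)) ∈ U := by
  classical
  obtain ⟨γ, hγ0, hγ⟩ := ap_pi j₀ hU
  obtain ⟨l, hl⟩ := Function.ne_iff.1 hx0
  have hl : x l ≠ 0 := hl
  have : Nonempty (Fin s) := ⟨j₀⟩
  obtain ⟨i₀, hi₀⟩ := Finite.exists_max fun i =>
    (Valued.v (x i) : WithZero (Multiplicative ℤ))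
  obtain ⟨B, hB⟩ : ∃ B : WithZero (Multiplicative ℤ), B = max γ (Valued.v (x i₀)) := ⟨_, rfl⟩
  have hBγ : γ ≤ B := hB ▸ le_max_left _ _
  have hBx : ∀ i, (Valued.v (x i) : WithZero (Multiplicative ℤ)) ≤ B := fun i =>
    (hi₀ i).trans (hB ▸ le_max_right _ _)
  obtain ⟨M₀, hM1, hM2⟩ := ap_exists_M B γ hγ0
  refine ⟨M₀, fun M hM => ?_⟩
  -- the valuation on `K`
  obtain ⟨w, hw⟩ : ∃ w : Valuation K (WithZero (Multiplicative ℤ)),
      ∀ y, w y = Valued.v (algebraMap K L y) :=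
    ⟨Valuation.comap (algebraMap K L) Valued.v, fun y => rfl⟩
  have hkw : w (k : K) = 1 := by
    rw [hw, map_natCast]
    exact hkv
  -- the first approximation
  obtain ⟨ε, hε⟩ : ∃ ε : WithZero (Multiplicative ℤ),
      ε = exp (-(M : ℤ)) * Valued.v (algebraMap K L (a l) * x l ^ k) := ⟨_, rfl⟩
  have hε0 : ε ≠ 0 := by
    rw [hε]
    refine mul_ne_zero exp_ne_zero ?_
    rw [Valuation.ne_zero_iff]
    exact mul_ne_zero ((map_ne_zero _).2 (ha l)) (pow_ne_zero _ hl)
  obtain ⟨f, hf⟩ : ∃ f : (Fin s → L) → L, ∀ y, f y = ∑ i, algebraMap K L (a i) * y i ^ k :=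
    ⟨_, fun y => rfl⟩
  have hfc : Continuous f := by
    have h1 : f = fun y => ∑ i, algebraMap K L (a i) * y i ^ k := funext hf
    rw [h1]
    fun_prop
  have hN : {y | (Valued.v (f y) : WithZero (Multiplicative ℤ)) < ε} ∈ nhds x := by
    have h1 := hfc.continuousAt.preimage_mem_nhds (x := x)
      (ap_nhds (K := K) hnt hε0 (f x))
    have h2 : f x = 0 := by rw [hf, hx]
    rw [h2] at h1
    refine Filter.mem_of_superset h1 fun y hy => ?_
    have h3 : Valued.v (f y - 0) < ε := hy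
    rwa [sub_zero] at h3
  obtain ⟨δ₁, hδ₁0, hδ₁⟩ := ap_pi j₀ hN
  have hvl : (Valued.v (x l) : WithZero (Multiplicative ℤ)) ≠ 0 :=
    (Valuation.ne_zero_iff _).2 hl
  obtain ⟨δ, hδ⟩ : ∃ δ : WithZero (Multiplicative ℤ), δ = min γ (min δ₁ (Valued.v (x l))) :=
    ⟨_, rfl⟩
  have hδ0 : δ ≠ 0 := by
    rw [hδ, ← zero_lt_iff]
    exact lt_min (zero_lt_iff.2 hγ0) (lt_min (zero_lt_iff.2 hδ₁0) (zero_lt_iff.2 hvl))
  have hδγ : δ ≤ γ := hδ ▸ min_le_left _ _
  have hδδ₁ : δ ≤ δ₁ := hδ ▸ (min_le_right _ _).trans (min_le_left _ _)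
  have hδl : δ ≤ Valued.v (x l) := hδ ▸ (min_le_right _ _).trans (min_le_right _ _)
  choose η hη0 hη using fun i => ap_near hd hnt hδ0 (x i)
  have hηl : w (η l) = Valued.v (x l) := by
    rw [hw]
    exact Valuation.map_eq_of_sub_lt _ (lt_of_lt_of_le (hη l) hδl)
  have hfη : w (∑ i, a i * η i ^ k) < ε := by
    have h1 : (fun i => algebraMap K L (η i)) ∈
        {y | (Valued.v (f y) : WithZero (Multiplicative ℤ)) < ε} :=
      hδ₁ _ fun i => lt_of_lt_of_le (hη i) hδδ₁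
    have h2 : Valued.v (f fun i => algebraMap K L (η i)) < ε := h1
    rw [hf] at h2
    rw [hw, map_sum]
    simpa only [map_mul, map_pow] using h2
  have hεl : ε = exp (-(M : ℤ)) * w (a l * η l ^ k) := by
    rw [hε, map_mul, map_mul, map_pow, map_pow, hηl, hw]
  obtain ⟨A, hA⟩ : ∃ A, A = ∑ i ∈ Finset.univ.erase l, a i * η i ^ k := ⟨_, rfl⟩
  have hsum : ∀ t : K, ∑ i, a i * (Function.update η l t i) ^ k = A + a l * t ^ k := by
    intro t
    rw [← Finset.add_sum_erase _ _ (Finset.mem_univ l), Function.update_self, add_comm, hA]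
    congr 1
    refine Finset.sum_congr rfl fun i hi => ?_
    rw [Function.update_of_ne (Finset.ne_of_mem_erase hi)]
  have hstart : w (A + a l * η l ^ k) ≤ exp (-(M : ℤ)) * w (a l * η l ^ k) := by
    rw [← hsum, Function.update_eq_self, ← hεl]
    exact hfη.le
  have hj0 : w (a j₀ * η j₀ ^ k) ≠ 0 :=
    (Valuation.ne_zero_iff _).2 (mul_ne_zero (ha j₀) (pow_ne_zero _ (hη0 j₀)))
  obtain ⟨n, -, hn⟩ := ap_exists_M (w (a l * η l ^ k)) (exp (-(M : ℤ)) * w (a j₀ * η j₀ ^ k))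
    (mul_ne_zero exp_ne_zero hj0)
  obtain ⟨t, ht1, ht2⟩ := ap_newton w hkw A (a l) (η l) (ha l) (hη0 l) (hM1.trans hM) hstart n
  have hMlt : (exp (-(M : ℤ)) : WithZero (Multiplicative ℤ)) < 1 := by
    rw [← exp_zero, exp_lt_exp]
    omega
  have hwt1 : w (t / η l) = 1 := by
    have h1 := w.map_one_add_of_lt (lt_of_le_of_lt ht1 hMlt)
    have h2 : 1 + (t / η l - 1) = t / η l := by ring
    rwa [h2] at h1
  have ht0 : t ≠ 0 := by
    rintro rfl
    rw [zero_div, map_zero] at hwt1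
    exact zero_ne_one hwt1
  have hwt : w t = w (η l) := by
    rw [map_div₀] at hwt1
    rwa [div_eq_one_iff_eq ((Valuation.ne_zero_iff _).2 (hη0 l))] at hwt1
  have hwζ : ∀ i, w (Function.update η l t i) = w (η i) := by
    intro i
    by_cases hi : i = l
    · rw [hi, Function.update_self, hwt]
    · rw [Function.update_of_ne hi]
  have hwη : ∀ i, w (η i) ≤ B := by
    intro i
    rw [hw]
    have h1 : algebraMap K L (η i) = (algebraMap K L (η i) - x i) + x i := by ring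
    rw [h1]
    exact Valuation.map_add_le _ (((hη i).le.trans hδγ).trans hBγ) (hBx i)
  have hMM : (exp (-(M : ℤ)) : WithZero (Multiplicative ℤ)) ≤ exp (-(M₀ : ℤ)) := by
    rw [exp_le_exp]
    omega
  refine ⟨Function.update η l t, fun i => ?_, ?_, fun z hz => hγ _ fun i => ?_⟩
  · by_cases hi : i = l
    · rw [hi, Function.update_self]
      exact ht0
    · rw [Function.update_of_ne hi]
      exact hη0 i
  · rw [hsum, ← hw, ← hw]
    have h1 : w (a j₀ * Function.update η l t j₀ ^ k) = w (a j₀ * η j₀ ^ k) := by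
      rw [map_mul, map_mul, map_pow, map_pow, hwζ]
    rw [h1]
    refine ht2.trans (le_trans (mul_le_mul' ?_ le_rfl) hn.le)
    rw [exp_le_exp]
    push_cast
    omega
  · -- the relative neighbourhood
    obtain ⟨ζ, hζ⟩ : ∃ ζ, ζ = Function.update η l t i := ⟨_, rfl⟩
    have hζ0 : ζ ≠ 0 := by
      rw [hζ]
      by_cases hi : i = l
      · rw [hi, Function.update_self]
        exact ht0
      · rw [Function.update_of_ne hi]
        exact hη0 i
    have h1 : w (z i - ζ) < γ := by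
      have h2 : z i - ζ = (z i / ζ - 1) * ζ := by
        field_simp
      rw [h2, map_mul]
      refine lt_of_le_of_lt (mul_le_mul' ((?_ : w (z i / ζ - 1) ≤ exp (-(M : ℤ))).trans hMM)
        (?_ : w ζ ≤ B)) hM2
      · rw [hw, hζ]
        exact hz i
      · rw [hζ, hwζ]
        exact hwη i
    have h3 : w (ζ - η i) < γ := by
      by_cases hi : i = l
      · subst hi
        rw [hζ, Function.update_self]
        have h4 : t - η i = (t / η i - 1) * η i := by
          have := hη0 i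
          field_simp
        rw [h4, map_mul]
        exact lt_of_le_of_lt (mul_le_mul' (ht1.trans hMM) (hwη i)) hM2
      · rw [hζ, Function.update_of_ne hi, sub_self, map_zero]
        exact zero_lt_iff.2 hγ0
    rw [hw] at h1 h3
    have h5 : algebraMap K L (z i) - x i = (algebraMap K L (z i - ζ) +
        algebraMap K L (ζ - η i)) + (algebraMap K L (η i) - x i) := by
      rw [map_sub, map_sub]
      ring
    show Valued.v (algebraMap K L (z i) - x i) < γ
    rw [h5]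
    exact Valuation.map_add_lt _ (Valuation.map_add_lt _ h1 h3) (lt_of_lt_of_le (hη i) hδγ)

end Pool.Agent.H598.WA

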