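import Pool.Agent.H598.WA.CoreK
import Pool.Agent.H598.WA.Approx
import Pool.Agent.H598.DG.Diag

/-!
# Weak approximation for diagonal hypersurfaces over `F(t)`
-/

namespace Pool.Agent.H598.WA

open Finset Polynomial WithZero IsDedekindDomain Pool.Agent.H598.FQ Pool.Agent.H598.DG

variable {F : Type*} [Field F]

/-- The valuation of the completion at a finite place. -/
lemma val_fin (v : HeightOneSpectrum F[X]) (c : RatFunc F) :
    (Valued.v (algebraMap (RatFunc F) (v.adicCompletion (RatFunc F)) c) :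
      WithZero (Multiplicative ℤ)) = v.valuation (RatFunc F) c :=
  HeightOneSpectrum.adicCompletion.valued_coe (RatFunc F) v c

lemma dense_fin (v : HeightOneSpectrum F[X]) :
    DenseRange (algebraMap (RatFunc F) (v.adicCompletion (RatFunc F))) :=
  HeightOneSpectrum.denseRange_algebraMap (RatFunc F) v

section
variable [DecidableEq (RatFunc F)]

/-- The valuation of the completion at infinity. -/
lemma val_inf (c : RatFunc F) :
    (Valued.v (algebraMap (RatFunc F) (RatFunc.CompletionAtInfty F) c) :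
      WithZero (Multiplicative ℤ)) = RatFunc.inftyValuation F c := by
  let _ : Valued (RatFunc F) (WithZero (Multiplicative ℤ)) := RatFunc.inftyValued F
  exact Valued.extensionValuation_apply_coe c

lemma dense_inf :
    DenseRange (algebraMap (RatFunc F) (RatFunc.CompletionAtInfty F)) := by
  let _ : Valued (RatFunc F) (WithZero (Multiplicative ℤ)) := RatFunc.inftyValued F
  exact UniformSpace.Completion.denseRange_coe

/-- The places at which an element is not a unit. -/
lemma finite_bad (c : RatFunc F) (hc : c ≠ 0) :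
    {v : HeightOneSpectrum F[X] | v.valuation (RatFunc F) c ≠ 1}.Finite := by
  refine Set.Finite.subset ((HeightOneSpectrum.Support.finite F[X] c).union
    (HeightOneSpectrum.Support.finite F[X] c⁻¹)) ?_
  intro v hv
  rcases lt_or_gt_of_ne hv with h | h
  · right
    change 1 < v.valuation (RatFunc F) c⁻¹
    rw [map_inv₀]
    exact (one_lt_inv₀ ((Valuation.pos_iff _).2 hc)).2 h
  · left
    exact h

lemma val_nat_fin {k : ℕ} (hk : ((k : ℕ) : F) ≠ 0) (v : HeightOneSpectrum F[X]) :
    v.valuation (RatFunc F) ((k : ℕ) : RatFunc F) = 1 := by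
  have h1 : ((k : ℕ) : RatFunc F) = algebraMap F[X] (RatFunc F) ((k : ℕ) : F[X]) := by
    rw [map_natCast]
  rw [h1]
  apply le_antisymm (int_le_one v _)
  by_contra hcon
  push Not at hcon
  rw [int_lt_iff] at hcon
  have h3 : IsUnit (((k : ℕ) : F[X])) := by
    rw [← map_natCast (C : F →+* F[X]), isUnit_C]
    exact hk.isUnit
  exact (gn_irr v).not_isUnit (isUnit_of_dvd_unit hcon h3)

lemma val_nat_inf {k : ℕ} (hk : ((k : ℕ) : F) ≠ 0) :
    RatFunc.inftyValuation F ((k : ℕ) : RatFunc F) = 1 := by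
  have h1 : ((k : ℕ) : RatFunc F) = RatFunc.C ((k : ℕ) : F) := by
    rw [map_natCast]
  rw [h1]
  exact RatFunc.inftyValuation.C F hk

variable [Fintype F]

/-- Weak approximation, explicit form. -/
theorem wa_explicit {k : ℕ} (hk : 2 ≤ k) (hch : ∀ i : ℕ, 1 ≤ i → i ≤ k → ((i : ℕ) : F) ≠ 0)
    (hbig : Big (Fintype.card F) k) {s : ℕ} (hs : 2 * k + 1 ≤ s)
    (a : Fin s → RatFunc F) (ha : ∀ i, a i ≠ 0) (S : Finset (HeightOneSpectrum F[X]))
    (x : ∀ v : HeightOneSpectrum F[X], Fin s → v.adicCompletion (RatFunc F))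
    (hx0 : ∀ v ∈ S, x v ≠ 0)
    (hx : ∀ v ∈ S, ∑ i, algebraMap (RatFunc F) (v.adicCompletion (RatFunc F)) (a i) * x v i ^ k = 0)
    (xi : Fin s → RatFunc.CompletionAtInfty F) (hxi0 : xi ≠ 0)
    (hxi : ∑ i, algebraMap (RatFunc F) (RatFunc.CompletionAtInfty F) (a i) * xi i ^ k = 0)
    (U : ∀ v : HeightOneSpectrum F[X], Set (Fin s → v.adicCompletion (RatFunc F)))
    (hU : ∀ v ∈ S, U v ∈ nhds (x v))
    (Ui : Set (Fin s → RatFunc.CompletionAtInfty F)) (hUi : Ui ∈ nhds xi) :
    ∃ z : Fin s → RatFunc F, ∑ i, a i * z i ^ k = 0 ∧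
      (∀ v ∈ S, (fun i => algebraMap (RatFunc F) (v.adicCompletion (RatFunc F)) (z i)) ∈ U v) ∧
      (fun i => algebraMap (RatFunc F) (RatFunc.CompletionAtInfty F) (z i)) ∈ Ui := by
  classical
  have hkF : ((k : ℕ) : F) ≠ 0 := hch k (by omega) le_rfl
  obtain ⟨z0, hz0, hz0'⟩ := diag_ratFunc hk hch hbig hs a
  -- extension of the local data to all places
  have hx' : ∀ v : HeightOneSpectrum F[X], ∃ (y : Fin s → v.adicCompletion (RatFunc F))
      (V : Set (Fin s → v.adicCompletion (RatFunc F))), y ≠ 0 ∧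
      ∑ i, algebraMap (RatFunc F) (v.adicCompletion (RatFunc F)) (a i) * y i ^ k = 0 ∧
      V ∈ nhds y ∧ (v ∈ S → V = U v) := by
    intro v
    by_cases hv : v ∈ S
    · exact ⟨x v, U v, hx0 v hv, hx v hv, hU v hv, fun _ => rfl⟩
    · refine ⟨fun i => algebraMap (RatFunc F) (v.adicCompletion (RatFunc F)) (z0 i), Set.univ,
        ?_, ?_, Filter.univ_mem, fun h => absurd h hv⟩
      · intro h0
        apply hz0
        funext i
        have h1 := congrFun h0 i
        simp only [Pi.zero_apply, map_eq_zero] at h1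
        exact h1
      · rw [← map_zero (algebraMap (RatFunc F) (v.adicCompletion (RatFunc F))), ← hz0', map_sum]
        exact Finset.sum_congr rfl (fun i _ => by rw [map_mul, map_pow])
  choose y V hy0 hy hV hVU using hx'
  set B : Finset (HeightOneSpectrum F[X]) :=
    Finset.univ.biUnion (fun i => (finite_bad (a i) (ha i)).toFinset) with hB
  set S' := S ∪ B with hS'
  have hgood : ∀ v, v ∉ S' → ∀ i, v.valuation (RatFunc F) (a i) = 1 := by
    intro v hv i
    by_contra hcon
    apply hv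
    rw [hS', Finset.mem_union]
    right
    rw [hB, Finset.mem_biUnion]
    exact ⟨i, Finset.mem_univ _, (Set.Finite.mem_toFinset _).2 hcon⟩
  -- the approximations
  have h1 := fun v : HeightOneSpectrum F[X] => approx (dense_fin v)
    (by
      refine ⟨algebraMap F[X] (RatFunc F) (gn v), RatFunc.algebraMap_ne_zero (gn_irr v).ne_zero, ?_⟩
      rw [val_fin, val_gn_self, ← exp_zero, exp_lt_exp]
      omega)
    (show 1 ≤ k by omega)
    (by
      have : ((k : ℕ) : v.adicCompletion (RatFunc F))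
          = algebraMap (RatFunc F) (v.adicCompletion (RatFunc F)) ((k : ℕ) : RatFunc F) := by
        rw [map_natCast]
      rw [this, val_fin, val_nat_fin hkF v])
    a ha (Fin.castLE hs 0) (y v) (hy0 v) (hy v) (V v) (hV v)
  choose M₀ hM₀ using h1
  obtain ⟨Mi, hMi⟩ := approx (K := RatFunc F) (L := RatFunc.CompletionAtInfty F) dense_inf
    (by
      refine ⟨(RatFunc.X)⁻¹, inv_ne_zero RatFunc.X_ne_zero, ?_⟩
      rw [val_inf, map_inv₀, RatFunc.inftyValuation.X, ← exp_neg, ← exp_zero, exp_lt_exp]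
      omega)
    (show 1 ≤ k by omega)
    (by
      have : ((k : ℕ) : RatFunc.CompletionAtInfty F)
          = algebraMap (RatFunc F) (RatFunc.CompletionAtInfty F) ((k : ℕ) : RatFunc F) := by
        rw [map_natCast]
      rw [this, val_inf, val_nat_inf hkF])
    a ha (Fin.castLE hs 0) xi hxi0 hxi Ui hUi
  set M := 1 + ∑ v ∈ S', M₀ v + Mi with hM
  have hMv : ∀ v ∈ S', M₀ v ≤ M := by
    intro v hv
    have := Finset.single_le_sum (f := M₀) (fun _ _ => Nat.zero_le _) hv
    omega
  have h2 : ∀ v : HeightOneSpectrum F[X], ∃ ζ : Fin s → RatFunc F, v ∈ S' → ((∀ i, ζ i ≠ 0) ∧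
      v.valuation (RatFunc F) (∑ i, a i * ζ i ^ k) ≤
        exp (-(M : ℤ)) * v.valuation (RatFunc F) (a (Fin.castLE hs 0) * ζ (Fin.castLE hs 0) ^ k) ∧
      ∀ z : Fin s → RatFunc F, (∀ i, v.valuation (RatFunc F) (z i / ζ i - 1) ≤ exp (-(M : ℤ))) →
        (fun i => algebraMap (RatFunc F) (v.adicCompletion (RatFunc F)) (z i)) ∈ V v) := by
    intro v
    by_cases hv : v ∈ S'
    · obtain ⟨ζ, ha1, ha2, ha3⟩ := hM₀ v M (hMv v hv)
      refine ⟨ζ, fun _ => ⟨ha1, ?_, fun z hz => ha3 z (fun i => ?_)⟩⟩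
      · rw [val_fin, val_fin] at ha2
        exact ha2
      · rw [val_fin]
        exact hz i
    · exact ⟨0, fun h => absurd h hv⟩
  choose ζ hζ using h2
  obtain ⟨ζi, hb1, hb2, hb3⟩ := hMi M (by omega)
  rw [val_inf, val_inf] at hb2
  obtain ⟨z, hz, hz1, hz2⟩ := core_K hk hch hbig hs a ha S' hgood ζ (fun v hv => (hζ v hv).1)
    ζi hb1 M (by omega) (fun v hv => (hζ v hv).2.1) hb2
  refine ⟨z, hz, ?_, ?_⟩
  · intro v hv
    have hv' : v ∈ S' := Finset.mem_union_left _ hv
    rw [← hVU v hv]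
    exact (hζ v hv').2.2 z (fun i => hz1 v hv' i)
  · apply hb3
    intro i
    rw [val_inf]
    exact hz2 i

end

end Pool.Agent.H598.WA
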