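import Pool.Agent.H598.DG.Setup

/-!
# Diagonal equations with prescribed residues and prescribed top coefficients
-/

namespace Pool.Agent.H598.WA

open Finset Polynomial Pool.Agent.H598.FQ Pool.Agent.H598.DG
open scoped Classical

variable {F : Type*} [Field F] [Fintype F]

/-- Zeros near a prescribed approximate zero. -/
theorem core_poly {k : ℕ} (hk : 2 ≤ k) (hch : ∀ i : ℕ, 1 ≤ i → i ≤ k → ((i : ℕ) : F) ≠ 0)
    (hbig : Big (Fintype.card F) k) (a : Fin (2 * k + 1) → F[X]) (N : F[X]) (hN : N.Monic)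
    (ha : ∀ i, a i ≠ 0) (hrad : ∀ i, ∀ ϖ : F[X], Irreducible ϖ → ϖ ∣ a i → ϖ ∣ N)
    (e : Fin (2 * k + 1) → ℕ) (ρ : ℕ) (hρ : ∀ i, (a i).natDegree + k * e i ≤ ρ)
    (i₀ : Fin (2 * k + 1)) (hi₀ : (a i₀).natDegree + k * e i₀ = ρ) (J : ℕ) :
    ∃ T₀ : ℕ, ∀ T, T₀ ≤ T → ∀ (b : Fin (2 * k + 1) → F[X]) (m : F[X]),
      (∀ i, (b i).natDegree = T + e i) →
      N ∣ ∑ i, a i * b i ^ k + m →
      (∑ i, a i * b i ^ k + m) ∈ degreeLT F (k * T + ρ - J) →
      (∀ ϖ : F[X], Irreducible ϖ → ϖ ∣ N → ∃ i, ¬ ϖ ∣ a i * b i) →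
      ∃ y : Fin (2 * k + 1) → F[X], (∀ i, y i ∈ degreeLT F (T + e i - J - N.natDegree)) ∧
        ∑ i, a i * (b i + N * y i) ^ k + m = 0 := by
  set D := N.natDegree with hD
  set Sd := ∑ i, (a i).natDegree with hSd
  set Se := ∑ i, e i with hSe
  set A := (a 0 * N ^ (k - 1)).natDegree with hA
  have hdi : ∀ i, (a i).natDegree ≤ Sd := fun i =>
    Finset.single_le_sum (f := fun i => (a i).natDegree) (fun _ _ => Nat.zero_le _)
      (Finset.mem_univ i)
  have hei : ∀ i, e i ≤ Se := fun i =>
    Finset.single_le_sum (f := fun i => e i) (fun _ _ => Nat.zero_le _) (Finset.mem_univ i)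
  have hkk : ∀ t, k * t = (k - 1) * t + t := by
    intro t
    obtain ⟨k', hk'⟩ : ∃ k', k = k' + 1 := ⟨k - 1, by omega⟩
    rw [hk']
    simp only [Nat.add_sub_cancel]
    ring
  set B := D + J + 1 with hB
  set ee := 2 * k * (D + J) + ρ + 2 * k with hee
  set κ := Se + 2 * B + A + ρ + (k - 1) * (J + D + 1) with hκ
  obtain ⟨T₀, hT₀⟩ := exists_T (q := Fintype.card F) hk hbig ee κ (Se + J + D)
  refine ⟨T₀ + B + A + D + J + k + 5, fun T hT b m hb hdvd hdeg hloc => ?_⟩
  have hbigT := hT₀ (T + Se) (by omega)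
  set P : Fin (2 * k + 1) → ℕ := fun i => T + e i with hP
  have hkT : T ≤ k * T := Nat.le_mul_of_pos_left _ (by omega)
  set n : Fin (2 * k + 1) → ℕ := fun i => T + e i - J - D with hn
  set M := k * T + ρ - J - D with hM
  set R := T - B with hR
  set Nk := M - R with hNk
  have hkT2 := hkk T
  have hk1T : T ≤ (k - 1) * T := Nat.le_mul_of_pos_left _ (by omega)
  have hRM : R ≤ M := by omega
  have hkP : ∀ i, k * P i + (a i).natDegree ≤ k * T + ρ := by
    intro i
    have h1 := hρ i
    have h2 : k * P i = k * T + k * e i := by simp only [hP]; ring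
    omega
  have hPT : ∀ i, T ≤ P i := fun i => Nat.le_add_right _ _
  have hnP : ∀ i, n i + J + D = P i := by
    intro i
    simp only [hn, hP]
    omega
  have hbne : ∀ i, b i ≠ 0 := by
    intro i h0
    have := hb i
    rw [h0, natDegree_zero] at this
    omega
  have hNy : ∀ i, ∀ y ∈ degreeLT F (n i), N * y ∈ degreeLT F (P i - J) := by
    intro i y hy
    obtain ⟨n', hn'⟩ : ∃ n', n i = n' + 1 := ⟨n i - 1, by simp only [hn]; omega⟩
    rw [hn', mem_V_succ_iff] at hy
    have h1 := hnP i
    have h2 := hPT i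
    obtain ⟨s', hs'⟩ : ∃ s', P i - J = s' + 1 := ⟨P i - J - 1, by omega⟩
    rw [hs', mem_V_succ_iff]
    refine le_trans natDegree_mul_le ?_
    omega
  -- the variables
  have hx : ∀ i, ∀ y ∈ degreeLT F (n i), (b i + N * y).natDegree ≤ P i := by
    intro i y hy
    apply natDegree_add_le_of_degree_le
    · rw [hb i]
    · have h1 := hNy i y hy
      have h3 := hnP i
      have h2 := hPT i
      obtain ⟨s', hs'⟩ : ∃ s', P i - J = s' + 1 := ⟨P i - J - 1, by omega⟩
      rw [hs', mem_V_succ_iff] at h1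
      omega
  have hxc : ∀ i, ∀ y ∈ degreeLT F (n i), (b i + N * y).coeff (P i) = (b i).leadingCoeff := by
    intro i y hy
    rw [coeff_add]
    have h6 : (N * y).coeff (P i) = 0 := by
      have h1 := hNy i y hy
      have h3 := hnP i
      have h2 := hPT i
      apply coeff_eq_zero_of_natDegree_lt
      obtain ⟨s', hs'⟩ : ∃ s', P i - J = s' + 1 := ⟨P i - J - 1, by omega⟩
      rw [hs', mem_V_succ_iff] at h1
      omega
    rw [h6, add_zero, leadingCoeff, hb i]
  obtain ⟨c0, hc0⟩ := hdvd
  have hEE : ∀ y : (∀ i, degreeLT F (n i)),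
      N * EE a b N c0 n y = ∑ i, a i * (b i + N * (y i : F[X])) ^ k + m := by
    intro y
    unfold EE
    rw [mul_add, ← hc0, Finset.mul_sum]
    have h1 : ∀ i, N * GG k (a i) (b i) N (y i : F[X])
        = a i * (b i + N * (y i : F[X])) ^ k - a i * b i ^ k := by
      intro i
      rw [GG_mul]
      ring
    rw [Finset.sum_congr rfl (fun i _ => h1 i), Finset.sum_sub_distrib]
    ring
  have hE : ∀ y : (∀ i, degreeLT F (n i)), EE a b N c0 n y ∈ degreeLT F M := by
    intro y
    by_cases h0 : EE a b N c0 n y = 0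
    · rw [h0]; exact Submodule.zero_mem _
    have h1 : N * EE a b N c0 n y ∈ degreeLT F (k * T + ρ - J) := by
      have h2 : N * EE a b N c0 n y
          = ∑ i, a i * ((b i + N * (y i : F[X])) ^ k - b i ^ k) + (∑ i, a i * b i ^ k + m) := by
        rw [hEE]
        have h3 : ∑ i, a i * ((b i + N * (y i : F[X])) ^ k - b i ^ k)
            = ∑ i, a i * (b i + N * (y i : F[X])) ^ k - ∑ i, a i * b i ^ k := by
          rw [← Finset.sum_sub_distrib]
          exact Finset.sum_congr rfl (fun i _ => by ring)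
        rw [h3]
        ring
      rw [h2]
      refine Submodule.add_mem _ ?_ hdeg
      apply Submodule.sum_mem
      intro i _
      -- each difference has small degree
      have h4 := hkP i
      have h5 := hnP i
      have h55 := hPT i
      have h6 := hNy i _ (y i).2
      have h7 : a i * ((b i + N * (y i : F[X])) ^ k - b i ^ k)
          = (N * (y i : F[X])) * (a i * ∑ j ∈ Finset.range k,
            (b i + N * (y i : F[X])) ^ j * (b i) ^ (k - 1 - j)) := by
        rw [← GG_mul]
        unfold GG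
        ring
      rw [h7]
      obtain ⟨s', hs'⟩ : ∃ s', P i - J = s' + 1 := ⟨P i - J - 1, by omega⟩
      obtain ⟨s, hs⟩ : ∃ s, k * T + ρ - J = s + 1 := ⟨k * T + ρ - J - 1, by omega⟩
      rw [hs', mem_V_succ_iff] at h6
      rw [hs, mem_V_succ_iff]
      have h8 : (∑ j ∈ Finset.range k,
            (b i + N * (y i : F[X])) ^ j * (b i) ^ (k - 1 - j)).natDegree ≤ (k - 1) * P i :=
        natDegree_geom (hx i _ (y i).2) (by rw [hb i])
      have h9 := hkk (P i)
      refine le_trans natDegree_mul_le ?_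
      have h10 : (a i * ∑ j ∈ Finset.range k,
            (b i + N * (y i : F[X])) ^ j * (b i) ^ (k - 1 - j)).natDegree
            ≤ (a i).natDegree + (k - 1) * P i :=
        le_trans natDegree_mul_le (by omega)
      omega
    obtain ⟨s, hs⟩ : ∃ s, k * T + ρ - J = s + 1 := ⟨k * T + ρ - J - 1, by omega⟩
    rw [hs, mem_V_succ_iff, natDegree_mul hN.ne_zero h0] at h1
    obtain ⟨s', hs'⟩ : ∃ s', M = s' + 1 := ⟨M - 1, by omega⟩
    rw [hs', mem_V_succ_iff]
    omega
  have hdegM : ∀ i, n i + ((a i).natDegree + (k - 1) * P i) ≤ M := by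
    intro i
    have h1 := hkP i
    have h2 := hnP i
    have h3 := hkk (P i)
    omega
  have hRn : ∀ i, R ≤ n i := by
    intro i
    have h2 := hnP i
    have h3 : P i = T + e i := rfl
    omega
  have H : Hyp a b N c0 n P M Nk R := by
    refine ⟨hN.ne_zero, by omega, by omega, hRn, hx, ?_, hE, ?_, hrad⟩
    · intro i
      have h1 := hdegM i
      have h2 := hRn i
      omega
    · intro ϖ hϖ hϖN
      obtain ⟨i, hi⟩ := hloc ϖ hϖ hϖN
      refine ⟨i, fun h => hi ?_⟩
      rcases hϖ.prime.dvd_or_dvd h with h1 | h1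
      · rcases hϖ.prime.dvd_or_dvd h1 with h2 | h2
        · exfalso
          have h3 : IsUnit ((k : F[X])) := by
            rw [← map_natCast (C : F →+* F[X]), isUnit_C]
            exact (hch k (by omega) le_rfl).isUnit
          exact hϖ.not_isUnit (isUnit_of_dvd_unit h2 h3)
        · exact Dvd.dvd.mul_right h2 _
      · exact Dvd.dvd.mul_left (hϖ.prime.dvd_of_dvd_pow h1) _
  have I : Inf a b N n P M i₀ (b i₀).leadingCoeff := by
    refine ⟨ha i₀, leadingCoeff_ne_zero.2 (hbne i₀), hxc i₀, ?_⟩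
    have h2 := hnP i₀
    have h3 := hkk (P i₀)
    have h4 : k * P i₀ = k * T + k * e i₀ := by simp only [hP]; ring
    omega
  have U : Num (Fintype.card F) a N n P M Nk R ee κ (T + Se) := by
    refine ⟨ha, hdegM, ?_, ?_, ?_, ?_, ?_, ?_, ?_⟩
    · intro i
      have h3 := hnP i
      have h4 : k * T ≤ k * P i := Nat.mul_le_mul_left _ (by simp only [hP]; omega)
      have h6 : 2 * k * (P i + 1) = k * P i + k * P i + 2 * k := by ring
      have h7 : 2 * k * n i + 2 * k * (D + J) = k * P i + k * P i := by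
        have : P i = n i + (D + J) := by omega
        rw [this]; ring
      omega
    · intro i
      have := hei i
      simp only [hP]
      omega
    · have h2 := hnP 0
      have h3 : P 0 = T + e 0 := rfl
      omega
    · have h2 := hnP 0
      have h3 : P 0 = T + e 0 := rfl
      have h4 := hkP 0
      have h5 : (k - 1) * (n 0 - 1) ≤ (k - 1) * P 0 := Nat.mul_le_mul_left _ (by omega)
      have h6 := hkk (P 0)
      omega
    · omega
    · have h2 := hnP 0
      have h3 : P 0 = T + e 0 := rfl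
      have h4 := hei 0
      have h5 : n 0 - (R + 1 - A) ≤ Se + B + A := by omega
      have h6 : (k - 1) * T ≤ (k - 1) * (n 0 - 1) + (k - 1) * (J + D + 1) := by
        rw [← mul_add]
        apply Nat.mul_le_mul_left
        omega
      have h7 : Nk - ((k - 1) * (n 0 - 1) + 1) ≤ ρ + B + (k - 1) * (J + D + 1) := by
        omega
      omega
    · have h2 := hnP 0
      have h3 : P 0 = T + e 0 := rfl
      have h4 := hei 0
      apply hbigT (n 0)
      · omega
      · omega
  obtain ⟨y, hy⟩ := main_exists hk hch hbig H I U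
  refine ⟨fun i => (y i : F[X]), fun i => (y i).2, ?_⟩
  rw [← hEE y, hy, mul_zero]

end Pool.Agent.H598.WA
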