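import Mathlib

/-!
# Places of `F(t)`: elements with prescribed valuations, approximation by polynomials
-/

namespace Pool.Agent.H598.WA

open Polynomial WithZero IsDedekindDomain

variable {F : Type*} [Field F]

/-- A monic irreducible generator of the prime ideal. -/
lemma exists_gen (v : HeightOneSpectrum F[X]) :
    ∃ p : F[X], p.Monic ∧ Irreducible p ∧ v.asIdeal = Ideal.span {p} := by
  classical
  have h1 : v.asIdeal.IsPrincipal := IsPrincipalIdealRing.principal _
  obtain ⟨g, hg⟩ := h1
  have hg0 : g ≠ 0 := by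
    intro h0
    apply v.ne_bot
    rw [hg, h0]
    simp
  have hg1 : v.asIdeal = Ideal.span {g} := hg
  have hirr : Irreducible g := by
    have h2 : (Ideal.span {g} : Ideal F[X]).IsPrime := hg1 ▸ v.isPrime
    exact ((Ideal.span_singleton_prime hg0).1 h2).irreducible
  refine ⟨normalize g, monic_normalize hg0, ?_, ?_⟩
  · exact (normalize_associated g).symm.irreducible hirr
  · rw [hg1]
    exact Ideal.span_singleton_eq_span_singleton.2 (normalize_associated g).symm

/-- The chosen generator. -/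
noncomputable def gn (v : HeightOneSpectrum F[X]) : F[X] := (exists_gen v).choose

lemma gn_monic (v : HeightOneSpectrum F[X]) : (gn v).Monic := (exists_gen v).choose_spec.1

lemma gn_irr (v : HeightOneSpectrum F[X]) : Irreducible (gn v) := (exists_gen v).choose_spec.2.1

lemma gn_span (v : HeightOneSpectrum F[X]) : v.asIdeal = Ideal.span {gn v} :=
  (exists_gen v).choose_spec.2.2

/-- The place of an irreducible polynomial. -/
noncomputable def pl {p : F[X]} (hp : Irreducible p) : HeightOneSpectrum F[X] where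
  asIdeal := Ideal.span {p}
  isPrime := (Ideal.span_singleton_prime hp.ne_zero).2 hp.prime
  ne_bot := by
    rw [Ne, Ideal.span_singleton_eq_bot]
    exact hp.ne_zero

lemma int_lt_iff (v : HeightOneSpectrum F[X]) (x : F[X]) :
    v.valuation (RatFunc F) (algebraMap F[X] (RatFunc F) x) < 1 ↔ gn v ∣ x := by
  rw [HeightOneSpectrum.valuation_lt_one_iff_mem, gn_span, Ideal.mem_span_singleton]

lemma int_le_one (v : HeightOneSpectrum F[X]) (x : F[X]) :
    v.valuation (RatFunc F) (algebraMap F[X] (RatFunc F) x) ≤ 1 :=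
  HeightOneSpectrum.valuation_le_one v x

lemma int_le_pow_iff (v : HeightOneSpectrum F[X]) (x : F[X]) (n : ℕ) :
    v.valuation (RatFunc F) (algebraMap F[X] (RatFunc F) x) ≤ exp (-(n : ℤ)) ↔ gn v ^ n ∣ x := by
  have h1 : v.valuation (RatFunc F) (algebraMap F[X] (RatFunc F) x) = v.intValuation x :=
    HeightOneSpectrum.valuation_of_algebraMap v x
  rw [h1, HeightOneSpectrum.intValuation_le_pow_iff_mem, gn_span, Ideal.span_singleton_pow,
    Ideal.mem_span_singleton]

lemma val_gn_self (v : HeightOneSpectrum F[X]) :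
    v.valuation (RatFunc F) (algebraMap F[X] (RatFunc F) (gn v)) = exp (-1 : ℤ) := by
  have h1 : v.valuation (RatFunc F) (algebraMap F[X] (RatFunc F) (gn v)) = v.intValuation (gn v) :=
    HeightOneSpectrum.valuation_of_algebraMap v (gn v)
  rw [h1]
  exact HeightOneSpectrum.intValuation_singleton v (gn_irr v).ne_zero (gn_span v)

lemma val_gn_ne {u v : HeightOneSpectrum F[X]} (h : u ≠ v) :
    u.valuation (RatFunc F) (algebraMap F[X] (RatFunc F) (gn v)) = 1 := by
  apply le_antisymm (int_le_one u _)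
  by_contra hcon
  push Not at hcon
  rw [int_lt_iff] at hcon
  have h1 := (gn_irr u).associated_of_dvd (gn_irr v) hcon
  apply h
  apply HeightOneSpectrum.ext
  rw [gn_span u, gn_span v]
  exact Ideal.span_singleton_eq_span_singleton.2 h1

/-- An element with prescribed valuations. -/
lemma exists_w [DecidableEq (HeightOneSpectrum F[X])] (S : Finset (HeightOneSpectrum F[X]))
    (m : HeightOneSpectrum F[X] → ℤ) :
    ∃ w : RatFunc F, w ≠ 0 ∧ (∀ v ∈ S, v.valuation (RatFunc F) w = exp (m v)) ∧
      ∀ v, v ∉ S → v.valuation (RatFunc F) w = 1 := by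
  have hne : ∀ v : HeightOneSpectrum F[X], algebraMap F[X] (RatFunc F) (gn v) ≠ 0 := fun v =>
    RatFunc.algebraMap_ne_zero (gn_irr v).ne_zero
  refine ⟨∏ v ∈ S, (algebraMap F[X] (RatFunc F) (gn v)) ^ (-m v), ?_, ?_, ?_⟩
  · exact Finset.prod_ne_zero_iff.2 (fun v _ => zpow_ne_zero _ (hne v))
  · intro v hv
    rw [map_prod, Finset.prod_eq_single v]
    · rw [map_zpow₀, val_gn_self, ← exp_zsmul]
      congr 1
      simp
    · intro u _ huv
      rw [map_zpow₀, val_gn_ne (Ne.symm huv), one_zpow]
    · intro h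
      exact absurd hv h
  · intro v hv
    rw [map_prod]
    apply Finset.prod_eq_one
    intro u hu
    rw [map_zpow₀, val_gn_ne (fun h => hv (by rw [h]; exact hu)), one_zpow]

/-- Simultaneous approximation by a polynomial. -/
lemma exists_poly (S : Finset (HeightOneSpectrum F[X])) (θ : HeightOneSpectrum F[X] → RatFunc F)
    (hθ : ∀ v ∈ S, v.valuation (RatFunc F) (θ v) ≤ 1) (n : ℕ) :
    ∃ β : F[X], ∀ v ∈ S,
      v.valuation (RatFunc F) (algebraMap F[X] (RatFunc F) β - θ v) ≤ exp (-(n : ℤ)) := by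
  have h1 : ∀ v : S, ∃ r : F[X],
      v.1.valuation (RatFunc F) (algebraMap F[X] (RatFunc F) r - θ v.1) ≤ exp (-(n : ℤ)) := by
    intro v
    obtain ⟨r, hr⟩ := HeightOneSpectrum.exists_valuation_sub_lt_of_integer v.1 (hθ v.1 v.2)
      (Units.mk0 (exp (-(n : ℤ))) (exp_ne_zero))
    exact ⟨r, le_of_lt hr⟩
  choose r hr using h1
  obtain ⟨β, hβ⟩ := IsDedekindDomain.exists_forall_sub_mem_ideal (s := S)
    (fun v : HeightOneSpectrum F[X] => v.asIdeal) (fun _ => n) (fun v _ => v.prime)
    (fun u _ v _ huv h => huv (HeightOneSpectrum.ext h)) r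
  refine ⟨β, fun v hv => ?_⟩
  have h2 := hβ v hv
  have h3 : v.valuation (RatFunc F) (algebraMap F[X] (RatFunc F) (β - r ⟨v, hv⟩))
      ≤ exp (-(n : ℤ)) := by
    have h4 : v.valuation (RatFunc F) (algebraMap F[X] (RatFunc F) (β - r ⟨v, hv⟩))
        = v.intValuation (β - r ⟨v, hv⟩) := HeightOneSpectrum.valuation_of_algebraMap v _
    rw [h4, HeightOneSpectrum.intValuation_le_pow_iff_mem]
    exact h2
  have h5 : algebraMap F[X] (RatFunc F) β - θ v
      = algebraMap F[X] (RatFunc F) (β - r ⟨v, hv⟩)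
        + (algebraMap F[X] (RatFunc F) (r ⟨v, hv⟩) - θ v) := by
    rw [map_sub]; ring
  rw [h5]
  exact le_trans (Valuation.map_add _ _ _) (max_le h3 (hr ⟨v, hv⟩))

section infty
variable [DecidableEq (RatFunc F)]

/-- The polynomial part. -/
lemma poly_part (η : RatFunc F) : ∃ g : F[X],
    RatFunc.inftyValuation F (algebraMap F[X] (RatFunc F) g - η) < 1 := by
  have hd : η.denom.Monic := RatFunc.monic_denom η
  have hd0 : algebraMap F[X] (RatFunc F) η.denom ≠ 0 :=
    RatFunc.algebraMap_ne_zero hd.ne_zero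
  refine ⟨η.num /ₘ η.denom, ?_⟩
  have h1 := modByMonic_add_div η.num η.denom
  have h2 : algebraMap F[X] (RatFunc F) (η.num /ₘ η.denom) - η
      = - (algebraMap F[X] (RatFunc F) (η.num %ₘ η.denom)
        / algebraMap F[X] (RatFunc F) η.denom) := by
    have h3 : algebraMap F[X] (RatFunc F) η.denom * η = algebraMap F[X] (RatFunc F) η.num := by
      have h5 := RatFunc.num_div_denom η
      rw [div_eq_iff hd0] at h5
      rw [h5, mul_comm]
    have h4 : algebraMap F[X] (RatFunc F) η.num = algebraMap F[X] (RatFunc F) (η.num %ₘ η.denom)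
        + algebraMap F[X] (RatFunc F) η.denom * algebraMap F[X] (RatFunc F) (η.num /ₘ η.denom) := by
      rw [← map_mul, ← map_add, h1]
    apply mul_left_cancel₀ hd0
    rw [mul_sub, h3, h4, mul_neg, mul_div_cancel₀ _ hd0]
    ring
  rw [h2, Valuation.map_neg, map_div₀]
  by_cases h0 : η.num %ₘ η.denom = 0
  · rw [h0, map_zero, map_zero, zero_div]
    exact zero_lt_one
  · have h5 : RatFunc.inftyValuation F (algebraMap F[X] (RatFunc F) (η.num %ₘ η.denom))
        = exp ((η.num %ₘ η.denom).natDegree : ℤ) := RatFunc.inftyValuation.polynomial F h0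
    have h6 : RatFunc.inftyValuation F (algebraMap F[X] (RatFunc F) η.denom)
        = exp ((η.denom).natDegree : ℤ) := RatFunc.inftyValuation.polynomial F hd.ne_zero
    rw [h5, h6, div_lt_one₀ (exp_pos), exp_lt_exp]
    have h7 : η.denom ≠ 1 := by
      intro h
      apply h0
      rw [h, modByMonic_one]
    have := natDegree_modByMonic_lt η.num hd h7
    exact_mod_cast this

lemma val_inf_poly {p : F[X]} (hp : p ≠ 0) :
    RatFunc.inftyValuation F (algebraMap F[X] (RatFunc F) p) = exp (p.natDegree : ℤ) :=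
  RatFunc.inftyValuation.polynomial F hp

/-- Approximation by a polynomial at finitely many finite places and at infinity. -/
lemma exists_approx (S : Finset (HeightOneSpectrum F[X])) (n : ℕ) :
    ∃ D : ℕ, ∀ (θ : HeightOneSpectrum F[X] → RatFunc F)
      (_ : ∀ v ∈ S, v.valuation (RatFunc F) (θ v) ≤ 1) (ξ : RatFunc F),
      ∃ x : F[X], (∀ v ∈ S,
        v.valuation (RatFunc F) (algebraMap F[X] (RatFunc F) x - θ v) ≤ exp (-(n : ℤ))) ∧
        RatFunc.inftyValuation F (algebraMap F[X] (RatFunc F) x - ξ) ≤ exp (D : ℤ) := by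
  classical
  set N : F[X] := ∏ v ∈ S, (gn v) ^ n with hN
  have hN0 : N ≠ 0 := Finset.prod_ne_zero_iff.2 (fun v _ => pow_ne_zero _ (gn_irr v).ne_zero)
  have hN0' : algebraMap F[X] (RatFunc F) N ≠ 0 := RatFunc.algebraMap_ne_zero hN0
  refine ⟨N.natDegree, fun θ hθ ξ => ?_⟩
  obtain ⟨β, hβ⟩ := exists_poly S θ hθ n
  obtain ⟨g, hg⟩ := poly_part ((ξ - algebraMap F[X] (RatFunc F) β) / algebraMap F[X] (RatFunc F) N)
  refine ⟨β + N * g, ?_, ?_⟩
  · intro v hv
    have h1 : algebraMap F[X] (RatFunc F) (β + N * g) - θ v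
        = (algebraMap F[X] (RatFunc F) β - θ v) + algebraMap F[X] (RatFunc F) (N * g) := by
      rw [map_add]; ring
    rw [h1]
    refine le_trans (Valuation.map_add _ _ _) (max_le (hβ v hv) ?_)
    rw [int_le_pow_iff]
    exact Dvd.dvd.mul_right (Finset.dvd_prod_of_mem (fun v => gn v ^ n) hv) _
  · have h1 : algebraMap F[X] (RatFunc F) (β + N * g) - ξ
        = algebraMap F[X] (RatFunc F) N * (algebraMap F[X] (RatFunc F) g -
          (ξ - algebraMap F[X] (RatFunc F) β) / algebraMap F[X] (RatFunc F) N) := by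
      rw [map_add, map_mul]
      field_simp
      ring
    rw [h1, map_mul, val_inf_poly hN0]
    calc exp (N.natDegree : ℤ) * RatFunc.inftyValuation F (algebraMap F[X] (RatFunc F) g -
          (ξ - algebraMap F[X] (RatFunc F) β) / algebraMap F[X] (RatFunc F) N)
        ≤ exp (N.natDegree : ℤ) * 1 := mul_le_mul_right hg.le _
      _ = _ := mul_one _

end infty

end Pool.Agent.H598.WA
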