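import Mathlib

/-!
# Elementary estimates for valuations
-/

namespace Pool.Agent.H598.WA

section
variable {K Γ : Type*} [Field K] [LinearOrderedCommGroupWithZero Γ] (v : Valuation K Γ)

lemma val_eq_of_close {q h : K} {γ : Γ} (hγ : γ < 1) (hh : h ≠ 0)
    (h2 : v (q - h) ≤ γ * v h) : v q = v h := by
  have h3 : v (q - h) < v h := by
    refine lt_of_le_of_lt h2 ?_
    have : 0 < v h := (Valuation.pos_iff v).2 hh
    calc γ * v h < 1 * v h := by gcongr
      _ = v h := one_mul _
  have h4 : q = (q - h) + h := by ring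
  rw [h4]
  exact Valuation.map_add_eq_of_lt_right v h3

lemma rel_close {x g q h : K} {γ : Γ} (hγ : γ < 1) (hg : g ≠ 0) (hh : h ≠ 0)
    (h1 : v (x - g) ≤ γ * v g) (h2 : v (q - h) ≤ γ * v h) :
    v (x * h / (g * q) - 1) ≤ γ := by
  have hq : v q = v h := val_eq_of_close v hγ hh h2
  have hq0 : q ≠ 0 := by
    intro h0
    rw [h0, map_zero] at hq
    exact hh ((Valuation.zero_iff v).1 hq.symm)
  have e : x * h / (g * q) - 1 = ((x - g) * h - g * (q - h)) / (g * q) := by
    field_simp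
    ring
  have hpos : 0 < v (g * q) := (Valuation.pos_iff v).2 (mul_ne_zero hg hq0)
  rw [e, map_div₀, div_le_iff₀ hpos]
  refine le_trans (Valuation.map_sub v _ _) (max_le ?_ ?_)
  · rw [map_mul, map_mul, hq]
    calc v (x - g) * v h ≤ γ * v g * v h := by gcongr
      _ = γ * (v g * v h) := mul_assoc _ _ _
  · rw [map_mul, map_mul, hq]
    calc v g * v (q - h) ≤ v g * (γ * v h) := by gcongr
      _ = γ * (v g * v h) := by rw [mul_left_comm]

lemma val_pow_sub {x g : K} {B : Γ} (hx : v x ≤ B) (hg : v g ≤ B) {k : ℕ} (hk : 1 ≤ k) :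
    v (x ^ k - g ^ k) ≤ v (x - g) * B ^ (k - 1) := by
  have h1 := (Commute.all x g).mul_geom_sum₂ k
  rw [← h1, map_mul]
  gcongr
  apply Valuation.map_sum_le
  intro j hj
  have hj' := Finset.mem_range.1 hj
  rw [map_mul, map_pow, map_pow]
  calc v x ^ j * v g ^ (k - 1 - j) ≤ B ^ j * B ^ (k - 1 - j) := by gcongr
    _ = B ^ (k - 1) := by rw [← pow_add]; congr 1; omega

end

end Pool.Agent.H598.WA
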