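import Pool.Agent.H598.WA.Core
import Pool.Agent.H598.WA.Places
import Pool.Agent.H598.WA.Val

/-!
# Weak approximation for diagonal forms: the rational version
-/

namespace Pool.Agent.H598.WA

open Finset Polynomial WithZero IsDedekindDomain Pool.Agent.H598.FQ Pool.Agent.H598.DG
open scoped Classical

variable {F : Type*} [Field F]

/-- Coprimality of powers of the generators. -/
lemma coprime_gn {u v : HeightOneSpectrum F[X]} (h : u ≠ v) (n : ℕ) :
    IsCoprime (gn u ^ n) (gn v ^ n) := by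
  apply IsCoprime.pow
  refine (EuclideanDomain.dvd_or_coprime (gn u) (gn v) (gn_irr u)).resolve_left ?_
  intro hd
  have h1 := (int_lt_iff u (gn v)).2 hd
  rw [val_gn_ne h] at h1
  exact lt_irrefl _ h1

/-- The modulus. -/
noncomputable def NN (S : Finset (HeightOneSpectrum F[X])) (n : ℕ) : F[X] := ∏ v ∈ S, gn v ^ n

lemma NN_monic (S : Finset (HeightOneSpectrum F[X])) (n : ℕ) : (NN S n).Monic :=
  monic_prod_of_monic _ _ (fun v _ => (gn_monic v).pow n)

lemma NN_dvd {S : Finset (HeightOneSpectrum F[X])} {n : ℕ} {x : F[X]}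
    (h : ∀ v ∈ S, v.valuation (RatFunc F) (algebraMap F[X] (RatFunc F) x) ≤ exp (-(n : ℤ))) :
    NN S n ∣ x := by
  apply Finset.prod_dvd_of_coprime
  · intro u _ v _ huv
    exact coprime_gn huv n
  · intro v hv
    exact (int_le_pow_iff v x n).1 (h v hv)

/-- Irreducible divisors of the modulus. -/
lemma irr_dvd_NN {S : Finset (HeightOneSpectrum F[X])} {n : ℕ} {ϖ : F[X]} (hϖ : Irreducible ϖ)
    (h : ϖ ∣ NN S n) : ∃ v ∈ S, Associated ϖ (gn v) := by
  obtain ⟨v, hv, hd⟩ := (hϖ.prime.dvd_finsetProd_iff _).1 h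
  exact ⟨v, hv, hϖ.associated_of_dvd (gn_irr v) (hϖ.prime.dvd_of_dvd_pow hd)⟩

lemma pl_gn {ϖ : F[X]} (hϖ : Irreducible ϖ) : Associated ϖ (gn (pl hϖ)) := by
  have h1 := gn_span (pl hϖ)
  have h2 : (pl hϖ).asIdeal = Ideal.span {ϖ} := rfl
  rw [h2] at h1
  exact Ideal.span_singleton_eq_span_singleton.1 h1

lemma exp_le_one_nat (n : ℕ) : (exp (-(n : ℤ)) : WithZero (Multiplicative ℤ)) ≤ 1 := by
  rw [← exp_zero, exp_le_exp]
  omega

lemma exp_mono_nat {m n : ℕ} (h : m ≤ n) :
    (exp (-(n : ℤ)) : WithZero (Multiplicative ℤ)) ≤ exp (-(m : ℤ)) := by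
  rw [exp_le_exp]
  omega

/-- Bounding a value by a natural exponent. -/
lemma le_exp_toNat (x : WithZero (Multiplicative ℤ)) : x ≤ exp ((log x).toNat : ℤ) := by
  by_cases h : x = 0
  · rw [h]; exact zero_le
  · conv_lhs => rw [← exp_log h]
    rw [exp_le_exp]
    exact Int.self_le_toNat _

variable [Fintype F]

set_option maxHeartbeats 8000000 in
/-- The rational version of weak approximation. -/
theorem core_K [DecidableEq (RatFunc F)] {k : ℕ} (hk : 2 ≤ k) (hch : ∀ i : ℕ, 1 ≤ i → i ≤ k → ((i : ℕ) : F) ≠ 0)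
    (hbig : Big (Fintype.card F) k) {s : ℕ} (hs : 2 * k + 1 ≤ s)
    (a : Fin s → RatFunc F) (ha : ∀ i, a i ≠ 0)
    (S : Finset (HeightOneSpectrum F[X]))
    (hS : ∀ v, v ∉ S → ∀ i, v.valuation (RatFunc F) (a i) = 1)
    (ζ : HeightOneSpectrum F[X] → Fin s → RatFunc F) (hζ0 : ∀ v ∈ S, ∀ i, ζ v i ≠ 0)
    (ζi : Fin s → RatFunc F) (hζi0 : ∀ i, ζi i ≠ 0) (M : ℕ) (hM : 1 ≤ M)
    (hζ : ∀ v ∈ S, v.valuation (RatFunc F) (∑ i, a i * ζ v i ^ k) ≤ exp (-(M : ℤ)) *
      v.valuation (RatFunc F) (a (Fin.castLE hs 0) * ζ v (Fin.castLE hs 0) ^ k))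
    (hζi : RatFunc.inftyValuation F (∑ i, a i * ζi i ^ k) ≤ exp (-(M : ℤ)) *
      RatFunc.inftyValuation F (a (Fin.castLE hs 0) * ζi (Fin.castLE hs 0) ^ k)) :
    ∃ z : Fin s → RatFunc F, ∑ i, a i * z i ^ k = 0 ∧
      (∀ v ∈ S, ∀ i, v.valuation (RatFunc F) (z i / ζ v i - 1) ≤ exp (-(M : ℤ))) ∧
      ∀ i, RatFunc.inftyValuation F (z i / ζi i - 1) ≤ exp (-(M : ℤ)) := by
  set ι : Fin (2 * k + 1) → Fin s := Fin.castLE hs with hι
  have hιinj : Function.Injective ι := Fin.castLE_injective hs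
  set vi := RatFunc.inftyValuation F with hvi
  have hk1 : 1 ≤ k := by omega
  set AM : F[X] →+* RatFunc F := algebraMap F[X] (RatFunc F) with hAM
  have hAM0 : ∀ {p : F[X]}, p ≠ 0 → AM p ≠ 0 := fun h => RatFunc.algebraMap_ne_zero h
  -- the scaling factors
  have hw := fun i : Fin s => exists_w S (fun v => log (v.valuation (RatFunc F) (ζ v i)))
  choose w hw0 hwS' hwN using hw
  have hwS : ∀ i, ∀ v ∈ S, v.valuation (RatFunc F) (w i) = v.valuation (RatFunc F) (ζ v i) := by
    intro i v hv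
    rw [hwS' i v hv, exp_log]
    exact (Valuation.ne_zero_iff _).2 (hζ0 v hv i)
  have hjm : ∀ v : HeightOneSpectrum F[X], ∃ j : Fin (2 * k + 1), ∀ i : Fin (2 * k + 1),
      v.valuation (RatFunc F) (a (ι i) * w (ι i) ^ k)
        ≤ v.valuation (RatFunc F) (a (ι j) * w (ι j) ^ k) := fun v =>
    Finite.exists_max (fun i => v.valuation (RatFunc F) (a (ι i) * w (ι i) ^ k))
  choose jm hjm using hjm
  obtain ⟨μ, hμ0, hμS', hμN⟩ := exists_w S
    (fun v => -log (v.valuation (RatFunc F) (a (ι (jm v)) * w (ι (jm v)) ^ k)))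
  have haw : ∀ i, a i * w i ^ k ≠ 0 := fun i => mul_ne_zero (ha i) (pow_ne_zero _ (hw0 i))
  have hμS : ∀ v ∈ S, v.valuation (RatFunc F) μ *
      v.valuation (RatFunc F) (a (ι (jm v)) * w (ι (jm v)) ^ k) = 1 := by
    intro v hv
    have h1 : v.valuation (RatFunc F) (a (ι (jm v)) * w (ι (jm v)) ^ k) ≠ 0 :=
      (Valuation.ne_zero_iff _).2 (haw _)
    rw [hμS' v hv]
    conv_lhs => rw [← exp_log h1]
    rw [log_exp, ← exp_add, neg_add_cancel, exp_zero]
  -- the new coefficients
  set c : Fin s → RatFunc F := fun i => μ * (a i * w i ^ k) with hc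
  have hc0 : ∀ i, c i ≠ 0 := fun i => mul_ne_zero hμ0 (haw i)
  have hcN : ∀ v, v ∉ S → ∀ i, v.valuation (RatFunc F) (c i) = 1 := by
    intro v hv i
    simp only [hc, map_mul, map_pow, hμN v hv, hwN i v hv, hS v hv i, one_pow, mul_one]
  have hcS : ∀ v ∈ S, ∀ i : Fin (2 * k + 1), v.valuation (RatFunc F) (c (ι i)) ≤ 1 := by
    intro v hv i
    rw [← hμS v hv]
    simp only [hc]
    rw [map_mul]
    gcongr
    exact hjm v i
  have hcS1 : ∀ v ∈ S, v.valuation (RatFunc F) (c (ι (jm v))) = 1 := by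
    intro v hv
    simp only [hc]
    rw [map_mul, hμS v hv]
  have hα : ∀ i : Fin (2 * k + 1), ∃ α : F[X], AM α = c (ι i) := by
    intro i
    have h1 := HeightOneSpectrum.mem_integers_of_valuation_le_one (R := F[X]) (K := RatFunc F)
      (c (ι i)) (by
        intro v
        by_cases hv : v ∈ S
        · exact hcS v hv i
        · exact (hcN v hv _).le)
    obtain ⟨α, hα⟩ := h1
    exact ⟨α, hα⟩
  choose α hα using hα
  have hα0 : ∀ i, α i ≠ 0 := by
    intro i h0
    apply hc0 (ι i)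
    rw [← hα i, h0, map_zero]
  -- the precision
  set M' : ℕ := M + ∑ v ∈ S, ∑ i, (log (v.valuation (RatFunc F) (c i))).toNat with hM'
  have hMM' : M ≤ M' := Nat.le_add_right _ _
  have hcM' : ∀ v ∈ S, ∀ i, v.valuation (RatFunc F) (c i) * exp (-(M' : ℤ)) ≤ exp (-(M : ℤ)) := by
    intro v hv i
    have h1 : (log (v.valuation (RatFunc F) (c i))).toNat
        ≤ ∑ v ∈ S, ∑ i, (log (v.valuation (RatFunc F) (c i))).toNat := by
      refine le_trans ?_ (Finset.single_le_sum
        (f := fun v : HeightOneSpectrum F[X] => ∑ i, (log (v.valuation (RatFunc F) (c i))).toNat)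
        (fun _ _ => Nat.zero_le _) hv)
      exact Finset.single_le_sum
        (f := fun i => (log (v.valuation (RatFunc F) (c i))).toNat)
        (fun _ _ => Nat.zero_le _) (Finset.mem_univ i)
    calc v.valuation (RatFunc F) (c i) * exp (-(M' : ℤ))
        ≤ exp ((log (v.valuation (RatFunc F) (c i))).toNat : ℤ) * exp (-(M' : ℤ)) := by
          gcongr
          exact le_exp_toNat _
      _ ≤ exp (-(M : ℤ)) := by
          rw [← exp_add, exp_le_exp]
          have : ((M' : ℕ) : ℤ) = (M : ℤ) +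
            ((∑ v ∈ S, ∑ i, (log (v.valuation (RatFunc F) (c i))).toNat : ℕ) : ℤ) := by
            rw [hM']; push_cast; ring
          omega
  -- the place at infinity
  have hviX : ∀ n : ℕ, vi (RatFunc.X ^ n) = exp (n : ℤ) := by
    intro n
    rw [map_pow, hvi, RatFunc.inftyValuation.X, ← exp_nsmul]
    simp
  have hX0 : (RatFunc.X : RatFunc F) ≠ 0 := RatFunc.X_ne_zero
  have hζw : ∀ i, ζi i / w i ≠ 0 := fun i => div_ne_zero (hζi0 i) (hw0 i)
  set cc : ℕ := ∑ i, (-log (vi (ζi i / w i))).toNat with hcc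
  set ξ : Fin s → RatFunc F := fun i => RatFunc.X ^ cc * (ζi i / w i) with hξ
  have hξ0 : ∀ i, ξ i ≠ 0 := fun i => mul_ne_zero (pow_ne_zero _ hX0) (hζw i)
  have he : ∀ i, ∃ e : ℕ, vi (ξ i) = exp (e : ℤ) := by
    intro i
    have h1 : vi (ζi i / w i) ≠ 0 := (Valuation.ne_zero_iff _).2 (hζw i)
    have h2 : (-log (vi (ζi i / w i))).toNat ≤ cc :=
      Finset.single_le_sum (f := fun i => (-log (vi (ζi i / w i))).toNat)
        (fun _ _ => Nat.zero_le _) (Finset.mem_univ i)
    have h3 : 0 ≤ (cc : ℤ) + log (vi (ζi i / w i)) := by omega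
    refine ⟨((cc : ℤ) + log (vi (ζi i / w i))).toNat, ?_⟩
    simp only [hξ]
    rw [map_mul, hviX, Int.toNat_of_nonneg h3, exp_add, exp_log h1]
  choose e he using he
  obtain ⟨i₀, hi₀⟩ := Finite.exists_max (fun i : Fin (2 * k + 1) => (α i).natDegree + k * e (ι i))
  set ρ := (α i₀).natDegree + k * e (ι i₀) with hρ
  have hplS : ∀ (ϖ : F[X]) (hϖ : Irreducible ϖ) (i : Fin (2 * k + 1)), ϖ ∣ α i → pl hϖ ∈ S := by
    intro ϖ hϖ i hd
    by_contra hcon
    have h1 := hcN _ hcon (ι i)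
    have h2 : gn (pl hϖ) ∣ α i := (pl_gn hϖ).dvd_iff_dvd_left.1 hd
    have h3 := (int_lt_iff (pl hϖ) (α i)).2 h2
    rw [← hAM, hα i, h1] at h3
    exact lt_irrefl _ h3
  have hrad : ∀ i, ∀ ϖ : F[X], Irreducible ϖ → ϖ ∣ α i → ϖ ∣ NN S M := by
    intro i ϖ hϖ hd
    have h1 := hplS ϖ hϖ i hd
    refine (pl_gn hϖ).dvd_iff_dvd_left.2 ?_
    refine dvd_trans ?_ (Finset.dvd_prod_of_mem (fun v => gn v ^ M) h1)
    exact dvd_pow_self _ (by omega)
  obtain ⟨D, hD⟩ := exists_approx S M'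
  obtain ⟨T₀, hT₀⟩ := core_poly hk hch hbig α (NN S M) (NN_monic S M) hα0 hrad
    (fun i => e (ι i)) ρ hi₀ i₀ rfl (M - 1)
  set Se := ∑ i, e i with hSe
  have hei : ∀ i, e i ≤ Se := fun i =>
    Finset.single_le_sum (f := fun i => e i) (fun _ _ => Nat.zero_le _) (Finset.mem_univ i)
  set lc : Fin s → ℕ := fun i => (log (vi (c i))).toNat with hlc
  set Sl := ∑ i, lc i with hSl
  have hli : ∀ i, lc i ≤ Sl := fun i =>
    Finset.single_le_sum (f := fun i => lc i) (fun _ _ => Nat.zero_le _) (Finset.mem_univ i)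
  set T := T₀ + D + M + Sl + k * Se + 1 with hT
  have hkSe : ∀ i, (k - 1) * e i ≤ k * Se := fun i => Nat.mul_le_mul (by omega) (hei i)
  -- the approximations
  have hθ1 : ∀ i, ∀ v ∈ S, v.valuation (RatFunc F) (ζ v i / w i) = 1 := by
    intro i v hv
    rw [map_div₀, hwS i v hv, div_self]
    exact (Valuation.ne_zero_iff _).2 (hζ0 v hv i)
  have hx0 := fun i : Fin s => hD (fun v => ζ v i / w i) (fun v hv => (hθ1 i v hv).le)
    (RatFunc.X ^ T * ξ i)
  choose x0 hx0S hx0i using hx0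
  obtain ⟨Q, hQS, hQi⟩ := hD (fun _ => 1) (fun v _ => by rw [map_one]) (RatFunc.X ^ (T + cc))
  have hG0 : ∀ i, RatFunc.X ^ T * ξ i ≠ 0 := fun i => mul_ne_zero (pow_ne_zero _ hX0) (hξ0 i)
  have hvG : ∀ i, vi (RatFunc.X ^ T * ξ i) = exp ((T : ℤ) + e i) := by
    intro i
    rw [map_mul, hviX, he i, exp_add]
  have hγ : (exp (-(M : ℤ)) : WithZero (Multiplicative ℤ)) < 1 := by
    rw [← exp_zero, exp_lt_exp]
    omega
  have hx0c : ∀ i, vi (AM (x0 i) - RatFunc.X ^ T * ξ i)
      ≤ exp (-(M : ℤ)) * vi (RatFunc.X ^ T * ξ i) := by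
    intro i
    refine le_trans (hx0i i) ?_
    rw [hvG, ← exp_add, exp_le_exp]
    omega
  have hvx0 : ∀ i, vi (AM (x0 i)) = exp ((T : ℤ) + e i) := by
    intro i
    rw [val_eq_of_close vi hγ (hG0 i) (hx0c i), hvG]
  have hx0ne : ∀ i, x0 i ≠ 0 := by
    intro i h0
    have := hvx0 i
    rw [h0, map_zero, map_zero] at this
    exact (exp_ne_zero) this.symm
  have hx0d : ∀ i, (x0 i).natDegree = T + e i := by
    intro i
    have h1 := hvx0 i
    rw [hvi, hAM, val_inf_poly (hx0ne i), exp_inj] at h1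
    exact_mod_cast h1
  set E : RatFunc F := ∑ i, c i * AM (x0 i) ^ k with hE
  have hES : ∀ v ∈ S, v.valuation (RatFunc F) E ≤ exp (-(M : ℤ)) := by
    intro v hv
    have h1 : E = ∑ i, c i * (AM (x0 i) ^ k - (ζ v i / w i) ^ k) + μ * ∑ i, a i * ζ v i ^ k := by
      rw [hE, Finset.mul_sum, ← Finset.sum_add_distrib]
      apply Finset.sum_congr rfl
      intro i _
      have h2 : c i * (ζ v i / w i) ^ k = μ * (a i * ζ v i ^ k) := by
        simp only [hc]
        rw [div_pow]
        field_simp [hw0 i]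
      rw [mul_sub, h2]
      ring
    rw [h1]
    refine le_trans (Valuation.map_add _ _ _) (max_le ?_ ?_)
    · apply Valuation.map_sum_le
      intro i _
      rw [map_mul]
      have h3 : v.valuation (RatFunc F) (AM (x0 i) ^ k - (ζ v i / w i) ^ k)
          ≤ v.valuation (RatFunc F) (AM (x0 i) - ζ v i / w i) * 1 ^ (k - 1) :=
        val_pow_sub _ (int_le_one v _) (hθ1 i v hv).le hk1
      rw [one_pow, mul_one] at h3
      calc v.valuation (RatFunc F) (c i) *
            v.valuation (RatFunc F) (AM (x0 i) ^ k - (ζ v i / w i) ^ k)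
          ≤ v.valuation (RatFunc F) (c i) * exp (-(M' : ℤ)) := by
            gcongr
            exact le_trans h3 (hx0S i v hv)
        _ ≤ _ := hcM' v hv i
    · rw [map_mul]
      calc v.valuation (RatFunc F) μ * v.valuation (RatFunc F) (∑ i, a i * ζ v i ^ k)
          ≤ v.valuation (RatFunc F) μ * (exp (-(M : ℤ)) *
            v.valuation (RatFunc F) (a (ι 0) * ζ v (ι 0) ^ k)) := by
            gcongr
            exact hζ v hv
        _ = exp (-(M : ℤ)) * v.valuation (RatFunc F) (c (ι 0)) := by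
            simp only [hc]
            simp only [map_mul, map_pow, hwS (ι 0) v hv]
            exact mul_left_comm _ _ _
        _ ≤ exp (-(M : ℤ)) * 1 := by
            gcongr
            exact hcS v hv 0
        _ = _ := mul_one _
  have hcN1 : ∀ v, v ∉ S → ∀ (i : Fin s) (p : F[X]),
      v.valuation (RatFunc F) (c i * AM p ^ k) ≤ 1 := by
    intro v hv i p
    rw [map_mul, hcN v hv i, one_mul, map_pow]
    exact pow_le_one₀ zero_le (int_le_one v p)
  have hcS1' : ∀ v ∈ S, ∀ (i : Fin (2 * k + 1)) (p : F[X]),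
      v.valuation (RatFunc F) (c (ι i) * AM p ^ k) ≤ 1 := by
    intro v hv i p
    rw [map_mul, map_pow]
    exact mul_le_one' (hcS v hv i) (pow_le_one₀ zero_le (int_le_one v p))
  have hEN : ∀ v, v ∉ S → v.valuation (RatFunc F) E ≤ 1 := by
    intro v hv
    apply Valuation.map_sum_le
    intro i _
    exact hcN1 v hv i _
  obtain ⟨m, hm⟩ : ∃ m : F[X], AM m = E - ∑ j, c (ι j) * AM (x0 (ι j)) ^ k := by
    have h1 := HeightOneSpectrum.mem_integers_of_valuation_le_one (R := F[X]) (K := RatFunc F)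
      (E - ∑ j, c (ι j) * AM (x0 (ι j)) ^ k) (by
        intro v
        by_cases hv : v ∈ S
        · refine le_trans (Valuation.map_sub _ _ _) (max_le ?_ ?_)
          · exact le_trans (hES v hv) (exp_le_one_nat M)
          · apply Valuation.map_sum_le
            intro i _
            exact hcS1' v hv i _
        · refine le_trans (Valuation.map_sub _ _ _) (max_le (hEN v hv) ?_)
          apply Valuation.map_sum_le
          intro i _
          exact hcN1 v hv _ _)
    obtain ⟨m, hm⟩ := h1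
    exact ⟨m, hm⟩
  have hP : AM (∑ j, α j * x0 (ι j) ^ k + m) = E := by
    rw [map_add, map_sum, hm]
    have h1 : ∑ j, AM (α j * x0 (ι j) ^ k) = ∑ j, c (ι j) * AM (x0 (ι j)) ^ k := by
      apply Finset.sum_congr rfl
      intro j _
      rw [map_mul, map_pow, hα j]
    rw [h1]
    ring
  have hdvd : NN S M ∣ ∑ j, α j * x0 (ι j) ^ k + m := by
    apply NN_dvd
    intro v hv
    rw [← hAM, hP]
    exact hES v hv
  have hviE : vi E ≤ exp ((k : ℤ) * T + ρ - M) := by
    have h1 : E = ∑ i, c i * (AM (x0 i) ^ k - (RatFunc.X ^ T * ξ i) ^ k)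
        + μ * RatFunc.X ^ (k * (T + cc)) * ∑ i, a i * ζi i ^ k := by
      rw [hE, Finset.mul_sum, ← Finset.sum_add_distrib]
      apply Finset.sum_congr rfl
      intro i _
      have h2 : c i * (RatFunc.X ^ T * ξ i) ^ k
          = μ * RatFunc.X ^ (k * (T + cc)) * (a i * ζi i ^ k) := by
        simp only [hc, hξ]
        rw [mul_pow, mul_pow, div_pow, ← pow_mul, ← pow_mul]
        have h3 : (RatFunc.X : RatFunc F) ^ (k * (T + cc)) = RatFunc.X ^ (T * k) * RatFunc.X ^ (cc * k) := by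
          rw [← pow_add]; congr 1; ring
        rw [h3]
        field_simp [hw0 i]
      rw [mul_sub, h2]
      ring
    rw [h1]
    refine le_trans (Valuation.map_add _ _ _) (max_le ?_ ?_)
    · apply Valuation.map_sum_le
      intro i _
      rw [map_mul]
      have h3 : vi (AM (x0 i) ^ k - (RatFunc.X ^ T * ξ i) ^ k)
          ≤ vi (AM (x0 i) - RatFunc.X ^ T * ξ i) * (exp ((T : ℤ) + e i)) ^ (k - 1) :=
        val_pow_sub _ (hvx0 i).le (hvG i).le hk1
      have h4 : vi (c i) ≤ exp (lc i : ℤ) := le_exp_toNat _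
      calc vi (c i) * vi (AM (x0 i) ^ k - (RatFunc.X ^ T * ξ i) ^ k)
          ≤ exp (lc i : ℤ) * (exp (D : ℤ) * (exp ((T : ℤ) + e i)) ^ (k - 1)) := by
            gcongr
            refine le_trans h3 ?_
            gcongr
            exact hx0i i
        _ ≤ _ := by
            rw [← exp_nsmul, ← exp_add, ← exp_add, exp_le_exp, nsmul_eq_mul]
            have h5 := hli i
            have h6 := hkSe i
            have h7 : ((k - 1 : ℕ) : ℤ) * ((T : ℤ) + e i) = (k : ℤ) * T - T + ((k - 1) * e i : ℕ) := by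
              push_cast [Nat.cast_sub hk1]
              ring
            rw [h7]
            omega
    · rw [map_mul]
      have h4 : vi (μ * RatFunc.X ^ (k * (T + cc))) * vi (a (ι 0) * ζi (ι 0) ^ k)
          = vi (c (ι 0)) * vi ((RatFunc.X ^ T * ξ (ι 0)) ^ k) := by
        rw [← map_mul, ← map_mul]
        congr 1
        simp only [hc, hξ]
        rw [mul_pow, mul_pow, div_pow, ← pow_mul, ← pow_mul]
        have h3 : (RatFunc.X : RatFunc F) ^ (k * (T + cc)) = RatFunc.X ^ (T * k) * RatFunc.X ^ (cc * k) := by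
          rw [← pow_add]; congr 1; ring
        rw [h3]
        field_simp [hw0 (ι 0)]
      have h5 : vi (c (ι 0)) = exp ((α 0).natDegree : ℤ) := by
        rw [← hα 0, hvi, hAM, val_inf_poly (hα0 0)]
      calc vi (μ * RatFunc.X ^ (k * (T + cc))) * vi (∑ i, a i * ζi i ^ k)
          ≤ vi (μ * RatFunc.X ^ (k * (T + cc))) * (exp (-(M : ℤ)) *
            vi (a (ι 0) * ζi (ι 0) ^ k)) := by
            gcongr
        _ = exp (-(M : ℤ)) * (vi (c (ι 0)) * vi ((RatFunc.X ^ T * ξ (ι 0)) ^ k)) := by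
            rw [← h4, mul_left_comm]
        _ ≤ _ := by
            rw [h5, map_pow, hvG, ← exp_nsmul, ← exp_add, ← exp_add, exp_le_exp, nsmul_eq_mul]
            have h6 := hi₀ 0
            have h7 : (k : ℤ) * ((T : ℤ) + e (ι 0)) = (k : ℤ) * T + (k * e (ι 0) : ℕ) := by
              push_cast; ring
            rw [h7]
            omega
  have hkT : T ≤ k * T := Nat.le_mul_of_pos_left _ (by omega)
  have hdeg : (∑ j, α j * x0 (ι j) ^ k + m) ∈ degreeLT F (k * T + ρ - (M - 1)) := by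
    by_cases h0 : ∑ j, α j * x0 (ι j) ^ k + m = 0
    · rw [h0]; exact Submodule.zero_mem _
    · obtain ⟨r, hr⟩ : ∃ r, k * T + ρ - (M - 1) = r + 1 := ⟨k * T + ρ - (M - 1) - 1, by omega⟩
      rw [hr, mem_V_succ_iff]
      have h1 := hviE
      rw [← hP, hvi, hAM, val_inf_poly h0, exp_le_exp] at h1
      have h2 : (k : ℤ) * T = ((k * T : ℕ) : ℤ) := by push_cast; ring
      rw [h2] at h1
      omega
  have hloc : ∀ ϖ : F[X], Irreducible ϖ → ϖ ∣ NN S M → ∃ i, ¬ ϖ ∣ α i * x0 (ι i) := by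
    intro ϖ hϖ hd
    obtain ⟨v, hv, hass⟩ := irr_dvd_NN hϖ hd
    refine ⟨jm v, fun hcon => ?_⟩
    have h1 : gn v ∣ α (jm v) * x0 (ι (jm v)) := hass.dvd_iff_dvd_left.1 hcon
    have h2 := (int_lt_iff v _).2 h1
    rw [map_mul, ← hAM, hα, map_mul, hcS1 v hv, one_mul] at h2
    have h3 : v.valuation (RatFunc F) (AM (x0 (ι (jm v)))) = 1 := by
      rw [← hθ1 (ι (jm v)) v hv]
      apply val_eq_of_close _ hγ
      · exact div_ne_zero (hζ0 v hv _) (hw0 _)
      · rw [hθ1 _ v hv, mul_one]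
        exact le_trans (hx0S _ v hv) (exp_mono_nat hMM')
    rw [h3] at h2
    exact lt_irrefl _ h2
  obtain ⟨y, hyd, hy⟩ := hT₀ T (by omega) (fun j => x0 (ι j)) m (fun j => hx0d (ι j)) hdvd hdeg hloc
  -- the solution
  set Y : Fin s → F[X] := fun i => if h : (i : ℕ) < 2 * k + 1 then y ⟨i, h⟩ else 0 with hY
  have hYι : ∀ j, Y (ι j) = y j := by
    intro j
    have h1 : ((ι j : Fin s) : ℕ) < 2 * k + 1 := j.2
    simp only [hY]
    rw [dif_pos h1]
    rfl
  have hYoff : ∀ i, i ∉ Set.range ι → Y i = 0 := by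
    intro i hi
    simp only [hY]
    rw [dif_neg]
    intro h
    exact hi ⟨⟨i, h⟩, rfl⟩
  set x : Fin s → F[X] := fun i => x0 i + NN S M * Y i with hx
  have hxsum : ∑ i, c i * AM (x i) ^ k = 0 := by
    have h1 : ∑ i, c i * AM (x i) ^ k - E
        = ∑ j, (c (ι j) * AM (x (ι j)) ^ k - c (ι j) * AM (x0 (ι j)) ^ k) := by
      rw [hE, ← Finset.sum_sub_distrib]
      symm
      apply Fintype.sum_of_injective ι hιinj
      · intro i hi
        simp only [hx]
        rw [hYoff i hi, mul_zero, add_zero, sub_self]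
      · intro j
        rfl
    have h2 : ∑ j, c (ι j) * AM (x (ι j)) ^ k + (E - ∑ j, c (ι j) * AM (x0 (ι j)) ^ k) = 0 := by
      rw [← hm]
      have h3 := congrArg AM hy
      rw [map_zero, map_add, map_sum] at h3
      rw [← h3]
      congr 1
      apply Finset.sum_congr rfl
      intro j _
      simp only [hx]
      rw [map_mul, map_pow, hα j, hYι j]
    rw [Finset.sum_sub_distrib] at h1
    have h4 : ∑ i, c i * AM (x i) ^ k = (∑ i, c i * AM (x i) ^ k - E) + E := by ring
    rw [h4, h1, ← h2]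
    ring
  have hQ : vi (AM Q - RatFunc.X ^ (T + cc)) ≤ exp (-(M : ℤ)) * vi (RatFunc.X ^ (T + cc)) := by
    refine le_trans hQi ?_
    rw [hviX, ← exp_add, exp_le_exp]
    push_cast
    omega
  have hQ0 : AM Q ≠ 0 := by
    intro h0
    have h1 := val_eq_of_close vi hγ (pow_ne_zero _ hX0) hQ
    rw [h0, map_zero, hviX] at h1
    exact exp_ne_zero h1.symm
  refine ⟨fun i => w i * AM (x i) / AM Q, ?_, ?_, ?_⟩
  · have h1 : ∀ i, a i * (w i * AM (x i) / AM Q) ^ k
        = (μ * AM Q ^ k)⁻¹ * (c i * AM (x i) ^ k) := by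
      intro i
      simp only [hc]
      rw [div_pow, mul_pow]
      field_simp
    rw [Finset.sum_congr rfl (fun i _ => h1 i), ← Finset.mul_sum, hxsum, mul_zero]
  · intro v hv i
    have h1 : v.valuation (RatFunc F) (AM (x i) - ζ v i / w i)
        ≤ exp (-(M : ℤ)) * v.valuation (RatFunc F) (ζ v i / w i) := by
      rw [hθ1 i v hv, mul_one]
      have h2 : AM (x i) - ζ v i / w i = (AM (x0 i) - ζ v i / w i) + AM (NN S M * Y i) := by
        simp only [hx]
        rw [map_add]; ring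
      rw [h2]
      refine le_trans (Valuation.map_add _ _ _) (max_le ?_ ?_)
      · exact le_trans (hx0S i v hv) (exp_mono_nat hMM')
      · rw [hAM, int_le_pow_iff]
        exact Dvd.dvd.mul_right (Finset.dvd_prod_of_mem (fun v => gn v ^ M) hv) _
    have h3 : v.valuation (RatFunc F) (AM Q - 1) ≤ exp (-(M : ℤ)) * v.valuation (RatFunc F) 1 := by
      rw [map_one, mul_one]
      exact le_trans (hQS v hv) (exp_mono_nat hMM')
    have h4 := rel_close (v.valuation (RatFunc F)) hγ (div_ne_zero (hζ0 v hv i) (hw0 i))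
      one_ne_zero h1 h3
    have h5 : w i * AM (x i) / AM Q / ζ v i - 1 = AM (x i) * 1 / (ζ v i / w i * AM Q) - 1 := by
      congr 1
      have h6 := hζ0 v hv i
      have h7 := hw0 i
      field_simp
    rw [h5]
    exact h4
  · intro i
    have h1 : vi (AM (x i) - RatFunc.X ^ T * ξ i) ≤ exp (-(M : ℤ)) * vi (RatFunc.X ^ T * ξ i) := by
      have h2 : AM (x i) - RatFunc.X ^ T * ξ i
          = (AM (x0 i) - RatFunc.X ^ T * ξ i) + AM (NN S M * Y i) := by
        simp only [hx]
        rw [map_add]; ring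
      rw [h2]
      refine le_trans (Valuation.map_add _ _ _) (max_le (hx0c i) ?_)
      by_cases hi : i ∈ Set.range ι
      · obtain ⟨j, rfl⟩ := hi
        rw [hYι j]
        by_cases hy0 : y j = 0
        · rw [hy0, mul_zero, map_zero, map_zero]
          exact zero_le
        · have h3 := mem_degreeLT.1 (hyd j)
          rw [degree_eq_natDegree hy0] at h3
          have h4 : (y j).natDegree < T + e (ι j) - (M - 1) - (NN S M).natDegree := by
            exact_mod_cast h3
          rw [hvi, hAM, val_inf_poly (mul_ne_zero (NN_monic S M).ne_zero hy0), ← hvi, hvG,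
            natDegree_mul (NN_monic S M).ne_zero hy0, ← exp_add, exp_le_exp]
          push_cast
          omega
      · rw [hYoff i hi, mul_zero, map_zero, map_zero]
        exact zero_le
    have h4 := rel_close vi hγ (hG0 i) (pow_ne_zero (T + cc) hX0) h1 hQ
    have h5 : w i * AM (x i) / AM Q / ζi i - 1
        = AM (x i) * RatFunc.X ^ (T + cc) / (RatFunc.X ^ T * ξ i * AM Q) - 1 := by
      congr 1
      simp only [hξ]
      have h6 := hζi0 i
      have h7 := hw0 i
      rw [pow_add]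
      field_simp
    rw [h5]
    exact h4

end Pool.Agent.H598.WA
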